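import Pool.Agent.H86.IG.Lbc

/-!
Row Coc (about 120 lines): the cocycle with values in {0, T} attached to a locally soluble class.

PROOF. r with r^2 = d (exists_sqrt, H10/Bridge3). f σ := if σ r = r then 0 else T (T = (h.up rfl).T, the point (0,0) of V.baseChange K^al). σ r = ± r.
 IsCocycle via isCocycle_iff (H10/Func4): locally constant: as in `exists_sha_of_triple` (H10/Hasse.lean, haloc: stabilizer_isOpen_of_isIntegral); cocycle: act σ T = T (act is pm; the coordinates are 0; compare act_T of row Kum, H73/IS), T + T = 0 (T_add_T of row Bas), four cases of signs.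
 IsLocTriv via isLocTriv_iff (H10/Func4): for ι : K^al → F^al (F = v.adicCompletion K or v.Completion; CharZero F: instances charZero_adic, charZero_inf in H10/Hasse, so F^al is Galois over F) apply lb_conv with Ω := F^al, h := inv_bc' V, the coefficients algebraMap K F a,
  algebraMap K F b, algebraMap K F d, r := ι r and the hypothesis of local solubility (map of -2 a, a^2 - 4 b: simp [map_mul, map_sub, map_pow]); for τ, σ with τ (ι x) = ι (σ x): ι (σ r) = τ (ι r), pm ι 0 = 0, pm ι T = T (pm_T, row Bas). TrivAt is defined in H10/Func1.lean.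
-/

set_option autoImplicit false
open scoped Classical

open WeierstrassCurve IsDedekindDomain NumberField Pool.Agent.H10

namespace H86IG

variable {K : Type} [Field K] [NumberField K] {V : WeierstrassCurve K} {a b : K}

theorem Coc_act {k Ω : Type*} [Field k] [Field Ω] [Algebra k Ω] {E : WeierstrassCurve Ω} {a b : Ω}
    (hE : H73IS.IsTw E a b) (i : Inv k E) (σ : Ω ≃ₐ[k] Ω) : act i σ hE.T = hE.T := by
  unfold act
  rw [H73IS.IsTw.T, pm_some, Affine.Point.some.injEq]
  exact ⟨map_zero _, map_zero _⟩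

theorem Coc_loc {F : Type} [Field F] [CharZero F] [Algebra K F] (h : H73IS.IsTw V a b) {d : K}
    {r : AlgebraicClosure K} (hr : r ≠ 0)
    (hr2 : r ^ 2 = algebraMap K (AlgebraicClosure K) d)
    {f : (AlgebraicClosure K ≃ₐ[K] AlgebraicClosure K) →
      (V.baseChange (AlgebraicClosure K)).toAffine.Point}
    (hf : ∀ σ, (f σ = 0 ∧ σ r = r) ∨
        (f σ = (h.up (φ := algebraMap K (AlgebraicClosure K)) rfl :
          H73IS.IsTw (V.baseChange (AlgebraicClosure K)) _ _).T ∧ σ r = -r))
    (H : H73IS.QPt (algebraMap K F (-2 * a)) (algebraMap K F (a ^ 2 - 4 * b)) (algebraMap K F d))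
    (ι : AlgebraicClosure K →ₐ[K] AlgebraicClosure F) :
    TrivAt (F := F) (inv_bc' V) (ι : AlgebraicClosure K →+* AlgebraicClosure F) (map_bc V ι) f := by
  have hE : H73IS.IsTw (V.baseChange (AlgebraicClosure F))
      (algebraMap F (AlgebraicClosure F) (algebraMap K F a))
      (algebraMap F (AlgebraicClosure F) (algebraMap K F b)) := by
    have h1 := (h.up (φ := algebraMap K (AlgebraicClosure F)) rfl :
      H73IS.IsTw (V.baseChange (AlgebraicClosure F)) _ _)
    rwa [IsScalarTower.algebraMap_apply K F (AlgebraicClosure F),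
      IsScalarTower.algebraMap_apply K F (AlgebraicClosure F)] at h1
  have hιr : ι r ≠ 0 := fun h0 => hr (by
    have h1 : ι r = ι 0 := by rw [h0, map_zero]
    exact ι.injective h1)
  have hι2 : (ι r) ^ 2 = algebraMap F (AlgebraicClosure F) (algebraMap K F d) := by
    rw [← map_pow, hr2, ι.commutes, IsScalarTower.algebraMap_apply K F (AlgebraicClosure F)]
  have H' : H73IS.QPt (-2 * algebraMap K F a) ((algebraMap K F a) ^ 2 - 4 * algebraMap K F b)
      (algebraMap K F d) := by
    have e1 : algebraMap K F (-2 * a) = -2 * algebraMap K F a := by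
      rw [map_mul, map_neg, map_ofNat]
    have e2 : algebraMap K F (a ^ 2 - 4 * b) = (algebraMap K F a) ^ 2 - 4 * algebraMap K F b := by
      rw [map_sub, map_mul, map_pow, map_ofNat]
    rwa [e1, e2] at H
  obtain ⟨R, hR⟩ := lb_conv (inv_bc' V : Inv F (V.baseChange (AlgebraicClosure F))) hE hιr hι2 H'
  refine ⟨R, fun τ σ hσ => ?_⟩
  have hT : pm (ι : AlgebraicClosure K →+* AlgebraicClosure F) (map_bc V ι)
      (h.up (φ := algebraMap K (AlgebraicClosure K)) rfl :
          H73IS.IsTw (V.baseChange (AlgebraicClosure K)) _ _).T = hE.T := by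
    rw [H73IS.IsTw.T, H73IS.IsTw.T, pm_some, Affine.Point.some.injEq]
    exact ⟨map_zero _, map_zero _⟩
  have h2 : (2 : AlgebraicClosure F) ≠ 0 := hE.two
  have hne : ι r ≠ -ι r := by
    intro h0
    have h3 : (2 : AlgebraicClosure F) * ι r = 0 := by linear_combination h0
    rcases mul_eq_zero.1 h3 with h4 | h4
    · exact h2 h4
    · exact hιr h4
  have h5 : τ (ι r) = ι (σ r) := hσ r
  rcases hf σ with ⟨hf0, hs⟩ | ⟨hf1, hs⟩
  · rcases hR τ with ⟨h6, _⟩ | ⟨_, h7⟩
    · rw [hf0, map_zero, h6]
    · exfalso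
      rw [hs] at h5
      exact hne (h5.symm.trans h7)
  · rcases hR τ with ⟨_, h7⟩ | ⟨h6, _⟩
    · exfalso
      rw [hs, map_neg] at h5
      exact hne (h7.symm.trans h5)
    · rw [hf1, hT, h6]

omit [NumberField K] in
theorem Coc_sqrt {r : AlgebraicClosure K} {d : K}
    (hr2 : r ^ 2 = algebraMap K (AlgebraicClosure K) d)
    (σ : AlgebraicClosure K ≃ₐ[K] AlgebraicClosure K) : σ r = r ∨ σ r = -r := by
  have h1 : (σ r) ^ 2 = r ^ 2 := by rw [← map_pow, hr2, σ.commutes]
  exact sq_eq_sq_iff_eq_or_eq_neg.1 h1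

theorem Coc_lc {X : Type*} (x y : X) (r : AlgebraicClosure K) :
    IsLocallyConstant (fun σ : AlgebraicClosure K ≃ₐ[K] AlgebraicClosure K =>
      if σ r = r then x else y) := by
  rw [IsLocallyConstant.iff_exists_open]
  intro σ
  have h1 := stabilizer_isOpen_of_isIntegral (K := K) (L := AlgebraicClosure K) r
  refine ⟨(fun τ => σ⁻¹ * τ) ⁻¹'
      (MulAction.stabilizer (AlgebraicClosure K ≃ₐ[K] AlgebraicClosure K) r :
          Set (AlgebraicClosure K ≃ₐ[K] AlgebraicClosure K)),
      h1.preimage (continuous_const_mul σ⁻¹), ?_, ?_⟩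
  · simp
  · intro τ k1
    have k2 : (σ⁻¹ * τ) r = r := k1
    have mv : τ r = σ r := by
      have : σ ((σ⁻¹ * τ) r) = σ r := by rw [k2]
      rw [← AlgEquiv.mul_apply, mul_inv_cancel_left] at this
      exact this
    change (if τ r = r then x else y) = (if σ r = r then x else y)
    rw [mv]

theorem exists_coc (h : H73IS.IsTw V a b) {d : K} (hd : d ≠ 0)
    (hfin : H73IS.FinQ K (-2 * a) (a ^ 2 - 4 * b) d)
    (hinf : H73IS.InfQ K (-2 * a) (a ^ 2 - 4 * b) d) :
    ∃ (f : (AlgebraicClosure K ≃ₐ[K] AlgebraicClosure K) →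
        (V.baseChange (AlgebraicClosure K)).toAffine.Point) (r : AlgebraicClosure K),
      IsCocycle K V f ∧ IsLocTriv K V f ∧ r ≠ 0 ∧ r ^ 2 = algebraMap K (AlgebraicClosure K) d ∧
      ∀ σ, (f σ = 0 ∧ σ r = r) ∨
        (f σ = (h.up (φ := algebraMap K (AlgebraicClosure K)) rfl :
          H73IS.IsTw (V.baseChange (AlgebraicClosure K)) _ _).T ∧ σ r = -r) := by
  obtain ⟨r, hr, hr2⟩ := exists_sqrt (AlgebraicClosure K) hd
  set hT := (h.up (φ := algebraMap K (AlgebraicClosure K)) rfl :
          H73IS.IsTw (V.baseChange (AlgebraicClosure K)) _ _) with hTdef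
  have h2 : (2 : AlgebraicClosure K) ≠ 0 := hT.two
  have hne : r ≠ -r := by
    intro h0
    have h3 : (2 : AlgebraicClosure K) * r = 0 := by linear_combination h0
    rcases mul_eq_zero.1 h3 with h4 | h4
    · exact h2 h4
    · exact hr h4
  have hf : ∀ σ : AlgebraicClosure K ≃ₐ[K] AlgebraicClosure K,
      ((if σ r = r then (0 : (V.baseChange (AlgebraicClosure K)).toAffine.Point) else hT.T) = 0 ∧
        σ r = r) ∨
      ((if σ r = r then (0 : (V.baseChange (AlgebraicClosure K)).toAffine.Point) else hT.T) = hT.T ∧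
        σ r = -r) := by
    intro σ
    rcases Coc_sqrt hr2 σ with h1 | h1
    · exact Or.inl ⟨if_pos h1, h1⟩
    · refine Or.inr ⟨if_neg ?_, h1⟩
      rw [h1]
      exact fun h0 => hne h0.symm
  refine ⟨fun σ => if σ r = r then 0 else hT.T, r, ?_, ?_, hr, hr2, hf⟩
  · rw [isCocycle_iff]
    refine ⟨Coc_lc _ _ r, fun σ τ => ?_⟩
    change (if (σ * τ) r = r then (0 : (V.baseChange (AlgebraicClosure K)).toAffine.Point)
      else hT.T) = (if σ r = r then (0 : (V.baseChange (AlgebraicClosure K)).toAffine.Point)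
      else hT.T) + act (inv_bc K V) σ
        (if τ r = r then (0 : (V.baseChange (AlgebraicClosure K)).toAffine.Point) else hT.T)
    rcases Coc_sqrt hr2 σ with h1 | h1 <;> rcases Coc_sqrt hr2 τ with h3 | h3
    · rw [if_pos h1, if_pos h3, if_pos (by rw [AlgEquiv.mul_apply, h3, h1]), map_zero, zero_add]
    · have h4 : ¬ τ r = r := by
        rw [h3]; exact fun h0 => hne h0.symm
      have h5 : ¬ (σ * τ) r = r := by
        rw [AlgEquiv.mul_apply, h3, map_neg, h1]; exact fun h0 => hne h0.symm
      rw [if_pos h1, if_neg h4, if_neg h5, Coc_act, zero_add]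
    · have h4 : ¬ σ r = r := by
        rw [h1]; exact fun h0 => hne h0.symm
      have h5 : ¬ (σ * τ) r = r := by
        rw [AlgEquiv.mul_apply, h3, h1]; exact fun h0 => hne h0.symm
      rw [if_neg h4, if_pos h3, if_neg h5, map_zero, add_zero]
    · have h4 : ¬ σ r = r := by
        rw [h1]; exact fun h0 => hne h0.symm
      have h4' : ¬ τ r = r := by
        rw [h3]; exact fun h0 => hne h0.symm
      have h5 : (σ * τ) r = r := by
        rw [AlgEquiv.mul_apply, h3, map_neg, h1, neg_neg]
      rw [if_neg h4, if_neg h4', if_pos h5, Coc_act, H73IS.T_add_T]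
  · rw [isLocTriv_iff]
    exact ⟨fun v ι => Coc_loc h hr hr2 hf (hfin v) ι, fun v ι => Coc_loc h hr hr2 hf (hinf v) ι⟩

end H86IG
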