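import Pool.Agent.H73.IS.Bas
import Pool.Agent.H10.Grow

/-!
Growth half of the dichotomy for curves with one rational point of order two (definitions, no row).
-/

set_option autoImplicit false

open WithZero

namespace H86IG

/-- A class congruent to `1 + 2 κ` modulo four, up to squares, is soluble. -/
def TwoQ {F : Type*} [Field F] (V : Valuation F (WithZero (Multiplicative ℤ))) (a b κ : F) : Prop :=
  ∃ δ t : F, δ ≠ 0 ∧ t ≠ 0 ∧ H73IS.QPt a b δ ∧ V (δ * t ^ 2 - (1 + 2 * κ)) ≤ exp (-2 : ℤ)

end H86IG
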