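import Pool.Agent.H86.IG.Ff
import Pool.Agent.H86.IG.Df

/-!
Row Gd (about 120 lines): every unit class is soluble at a place of good reduction, odd residue characteristic.

PROOF. Lemmas isSquare_of_res, val_one_of_res, units_odd in Pool/Agent/H10/GrOdd.lean. If ρ u is a square: u is a square in F, QPt.isSquare. Let ρ u be a nonsquare.
 (a) ρ b nonsquare: u b is a square in F (units_odd or isSquare_of_res of the product): u b = s s; M = 0, e = 1, N = s/u: u N^2 = s^2/u = b.
 (b) ρ b a square: by exists_nonsquare_point there is x ∈ k nonsquare with x (x^2 + a x + b) = y y (residues). x/ρ u is a square (two nonsquares: quadraticChar), x = ρ u z^2, z ≠ 0.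
   Then ρ u ((ρ u)^2 z^4 + a (ρ u) z^2 + b) = (y/z)^2 (divide x g = y^2 by z^2).
   y ≠ 0: lift z to Z : V.integer; W := u (u^2 Z^4 + a u Z^2 + b) has residue (y/z)^2 ≠ 0, so W = S^2 in F; M = Z, e = 1, N = S/u.
   y = 0: x^2 + a x + b = 0 in k, (2 x + a)^2 = a^2 - 4 b ≠ 0 in k, so a^2 - 4 b = S^2 in F with V S = 1; S ∈ V.integer, ρ S = ± (2 x + a), choose the sign + . X := (-a + S)/2 ∈ V.integer has ρ X = x, X^2 + a X + b = 0;
     X/u has residue z^2 ≠ 0, so X = u M^2 with M ∈ F: u^2 M^4 + a u M^2 + b = 0: QPt with e = 1, N = 0.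
-/

set_option autoImplicit false

open WithZero Pool.Agent.H10

namespace H86IG

variable {F : Type*} [Field F] {V : Valuation F (WithZero (Multiplicative ℤ))} {k : Type*} [Field k]
  {ρ : V.integer →+* k}

private theorem Gd_mul [Finite k] (h2 : (2 : k) ≠ 0) {x y : k} (nx : ¬ IsSquare x)
    (ny : ¬ IsSquare y) : IsSquare (x * y) := by
  classical
  have := Fintype.ofFinite k
  have hF := Pool.Agent.H93.MQ.FF_ringChar h2
  have hx : x ≠ 0 := by
    rintro rfl
    exact nx ⟨0, by ring⟩
  have hy : y ≠ 0 := by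
    rintro rfl
    exact ny ⟨0, by ring⟩
  rw [← quadraticChar_one_iff_isSquare (mul_ne_zero hx hy), map_mul,
    quadraticChar_neg_one_iff_not_isSquare.mpr nx, quadraticChar_neg_one_iff_not_isSquare.mpr ny]
  norm_num

private theorem Gd_ne {x : V.integer} (h : ρ x ≠ 0) : (x : F) ≠ 0 := by
  intro h0
  apply h
  have : x = 0 := Subtype.ext h0
  rw [this, map_zero]

private theorem Gd_two : ((2 : V.integer) : F) = 2 := rfl

private theorem Gd_four : ((4 : V.integer) : F) = 4 := rfl

/-- the case of a root in the residue field -/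
private theorem Gd_root [Finite k] (hρs : Function.Surjective ρ)
    (hρ : ∀ x : V.integer, ρ x = 0 ↔ V x < 1)
    (hS : ∀ x : F, V x < 1 → IsSquare (1 + x)) (h2 : (2 : k) ≠ 0) {a b u : V.integer}
    (hd : ρ (a ^ 2 - 4 * b) ≠ 0) (hu : ρ u ≠ 0) {x w : k} (hx0 : x ≠ 0)
    (hw : x * ρ u = w * w) (hg : x ^ 2 + ρ a * x + ρ b = 0) :
    H73IS.QPt (a : F) (b : F) (u : F) := by
  have hV2 : V (2 : F) = 1 := by
    have h := val_one_of_res hρ (x := (2 : V.integer)) (by rw [map_ofNat]; exact h2)
    rwa [Gd_two] at h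
  have h20 : (2 : F) ≠ 0 := by
    intro h
    rw [h, map_zero] at hV2
    exact zero_ne_one hV2
  -- the square root of the discriminant
  obtain ⟨S, hSS, hS2⟩ : ∃ S : V.integer, ((a ^ 2 - 4 * b : V.integer) : F) = (S : F) * S ∧
      ρ S = 2 * x + ρ a := by
    have h1 : IsSquare (ρ (a ^ 2 - 4 * b)) := by
      refine ⟨2 * x + ρ a, ?_⟩
      simp only [map_sub, map_pow, map_mul, map_ofNat]
      linear_combination -4 * hg
    obtain ⟨S, hS1⟩ := isSquare_of_res hρs hρ hS hd h1
    have hVS : V S ≤ 1 := by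
      have h3 : V (S * S) = 1 := by
        rw [← hS1]
        exact val_one_of_res hρ hd
      rw [map_mul] at h3
      by_contra hcon
      rw [not_le] at hcon
      have h4 : 1 < V S * V S := by
        calc (1 : WithZero (Multiplicative ℤ)) < V S := hcon
          _ = V S * 1 := (mul_one _).symm
          _ ≤ V S * V S := by gcongr
      rw [h3] at h4
      exact lt_irrefl _ h4
    have hS2 : (a ^ 2 - 4 * b : V.integer) = ⟨S, hVS⟩ * ⟨S, hVS⟩ := Subtype.ext hS1
    have h5 : (ρ ⟨S, hVS⟩ - (2 * x + ρ a)) * (ρ ⟨S, hVS⟩ + (2 * x + ρ a)) = 0 := by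
      have h6 := congrArg ρ hS2
      simp only [map_sub, map_pow, map_mul, map_ofNat] at h6
      linear_combination -h6 - 4 * hg
    rcases mul_eq_zero.1 h5 with h | h
    · exact ⟨⟨S, hVS⟩, hS1, sub_eq_zero.1 h⟩
    · refine ⟨-⟨S, hVS⟩, ?_, ?_⟩
      · rw [hS2]
        push_cast
        ring
      · rw [map_neg]
        linear_combination -h
  -- the root
  have hXV : V ((-(a : F) + S) / 2) ≤ 1 := by
    rw [map_div₀, hV2, div_one]
    exact (-a + S).2
  set X : V.integer := ⟨(-(a : F) + S) / 2, hXV⟩ with hX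
  have hXF : (X : F) = (-(a : F) + S) / 2 := rfl
  have h2X : 2 * X = -a + S := by
    apply Subtype.ext
    push_cast
    rw [hXF, Gd_two]
    field_simp
  have hρX : ρ X = x := by
    have h := congrArg ρ h2X
    simp only [map_add, map_neg, map_mul, map_ofNat] at h
    rw [hS2] at h
    have h' : (2 : k) * (ρ X - x) = 0 := by linear_combination h
    rcases mul_eq_zero.1 h' with h3 | h3
    · exact absurd h3 h2
    · exact sub_eq_zero.1 h3
  have hX2 : (X : F) ^ 2 + a * X + b = 0 := by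
    have h1 : (a : F) ^ 2 - 4 * b = S * S := by
      rw [← hSS]
      push_cast
      rw [Gd_four]
    rw [hXF]
    field_simp
    linear_combination -h1
  have huF := Gd_ne hu
  obtain ⟨t, ht⟩ := isSquare_of_res (x := X * u) hρs hρ hS
    (by rw [map_mul, hρX]; exact mul_ne_zero hx0 hu) ⟨w, by rw [map_mul, hρX, hw]⟩
  have ht' : (X : F) * u = t * t := ht
  refine ⟨t / u, 1, 0, Or.inr one_ne_zero, ?_⟩
  have h1 : (t / u) ^ 2 * u = X := by
    field_simp
    linear_combination -ht'
  have h3 : (u : F) ^ 2 * (t / u) ^ 4 = X ^ 2 := by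
    rw [← h1]
    ring
  rw [h3]
  have h4 : (a : F) * u * (t / u) ^ 2 * 1 ^ 2 = a * X := by
    rw [← h1]
    ring
  rw [h4]
  linear_combination -hX2

theorem qpt_good [Finite k] (hρs : Function.Surjective ρ)
    (hρ : ∀ x : V.integer, ρ x = 0 ↔ V x < 1)
    (hS : ∀ x : F, V x < 1 → IsSquare (1 + x)) (h2 : (2 : k) ≠ 0) {a b u : V.integer}
    (hb : ρ b ≠ 0) (hd : ρ (a ^ 2 - 4 * b) ≠ 0) (hu : ρ u ≠ 0) :
    H73IS.QPt (a : F) (b : F) (u : F) := by
  have huF := Gd_ne hu
  by_cases hsu : IsSquare (ρ u)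
  · exact H73IS.QPt.isSquare huF (isSquare_of_res hρs hρ hS hu hsu)
  by_cases hsb : IsSquare (ρ b)
  · obtain ⟨x, hx, y, hy⟩ := exists_nonsquare_point h2 (A := ρ a) (c := ρ b) hb
      (by simpa only [map_sub, map_pow, map_mul, map_ofNat] using hd) hsb
    have hx0 : x ≠ 0 := by
      rintro rfl
      exact hx ⟨0, by ring⟩
    obtain ⟨w, hw⟩ := Gd_mul h2 hx hsu
    have hw0 : w ≠ 0 := by
      rintro rfl
      rw [mul_zero] at hw
      exact mul_ne_zero hx0 hu hw
    by_cases hy0 : y = 0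
    · refine Gd_root hρs hρ hS h2 hd hu hx0 hw ?_
      rw [hy0, mul_zero] at hy
      rcases mul_eq_zero.1 hy with h | h
      · exact absurd h hx0
      · exact h
    · obtain ⟨Z, hZ⟩ := hρs (w / ρ u)
      have h1 : ρ (u * (u ^ 2 * Z ^ 4 + a * u * Z ^ 2 + b)) = (y * ρ u / w) * (y * ρ u / w) := by
        simp only [map_add, map_pow, map_mul, hZ]
        have hx' : x = w * w / ρ u := by
          rw [← hw]
          field_simp
        rw [hx'] at hy
        field_simp at hy ⊢
        linear_combination hy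
      have h0 : ρ (u * (u ^ 2 * Z ^ 4 + a * u * Z ^ 2 + b)) ≠ 0 := by
        rw [h1]
        have h3 : y * ρ u / w ≠ 0 := div_ne_zero (mul_ne_zero hy0 hu) hw0
        exact mul_ne_zero h3 h3
      obtain ⟨t, ht⟩ := isSquare_of_res hρs hρ hS h0 ⟨_, h1⟩
      have ht' : (u : F) * (u ^ 2 * Z ^ 4 + a * u * Z ^ 2 + b) = t * t := by
        rw [← ht]
        push_cast
        ring
      refine ⟨Z, 1, t / u, Or.inr one_ne_zero, ?_⟩
      field_simp
      linear_combination -ht'
  · have h1 := Gd_mul h2 hsu hsb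
    obtain ⟨s, hs⟩ := isSquare_of_res (x := u * b) hρs hρ hS
      (by rw [map_mul]; exact mul_ne_zero hu hb) (by rw [map_mul]; exact h1)
    have hs' : (u : F) * b = s * s := hs
    refine ⟨0, 1, s / u, Or.inr one_ne_zero, ?_⟩
    field_simp
    linear_combination -hs'

end H86IG
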