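import Pool.Agent.H86.IG.Grw
import Pool.Agent.H73.IS.KDf

/-!
Growth of the two-Selmer group in extensions of bounded degree of the real cyclotomic towers.
-/

set_option autoImplicit false
set_option linter.style.haveILetI false
open scoped Classical

open WithZero WeierstrassCurve IsDedekindDomain NumberField NumberField.Units Pool.Agent.H10 H5SW

namespace H86IG

/-- The number of primes above, in an extension of number fields. -/
theorem ncard_above {K L : Type} [Field K] [NumberField K] [Field L] [NumberField L]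
    [Algebra K L] {z : ℤ} (hz : z ≠ 0) :
    {w : HeightOneSpectrum (𝓞 L) | (z : 𝓞 L) ∈ w.asIdeal}.ncard ≤
      Module.finrank K L * {v : HeightOneSpectrum (𝓞 K) | (z : 𝓞 K) ∈ v.asIdeal}.ncard := by
  have hfinL := bad_fin (L := L) hz
  have hfinK := bad_fin (L := K) hz
  rw [Set.ncard_eq_toFinset_card _ hfinL, Set.ncard_eq_toFinset_card _ hfinK]
  let f : HeightOneSpectrum (𝓞 L) → HeightOneSpectrum (𝓞 K) := fun w => w.under (𝓞 K)
  refine Finset.card_le_mul_card_image_of_maps_to (f := f) ?_ _ ?_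
  · intro w hw
    rw [Set.Finite.mem_toFinset, Set.mem_setOf_eq] at hw ⊢
    change (z : 𝓞 K) ∈ (w.under (𝓞 K)).asIdeal
    change algebraMap (𝓞 K) (𝓞 L) (z : 𝓞 K) ∈ w.asIdeal
    rwa [map_intCast]
  · intro v hv
    haveI := v.isPrime
    haveI : v.asIdeal.IsMaximal := v.isMaximal
    haveI : NoZeroSMulDivisors (𝓞 K) (𝓞 L) := ⟨fun {c x} h => by
      rw [Algebra.smul_def, mul_eq_zero] at h
      rcases h with h | h
      · left
        exact (FaithfulSMul.algebraMap_injective (𝓞 K) (𝓞 L)) (by rw [h, map_zero])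
      · exact Or.inr h⟩
    have h1 := Ideal.card_primesOverFinset_le_finrank (R := 𝓞 K) (S := 𝓞 L) (K := K) (L := L)
      (p := v.asIdeal) v.ne_bot
    refine le_trans ?_ h1
    refine Finset.card_le_card_of_injOn (fun w => w.asIdeal) ?_ ?_
    · intro w hw
      rw [Finset.coe_filter, Set.mem_setOf_eq] at hw
      rw [Finset.mem_coe, IsDedekindDomain.mem_primesOverFinset_iff v.ne_bot]
      refine ⟨w.isPrime, ⟨?_⟩⟩
      rw [← hw.2]
      rfl
    · intro w _ w' _ h
      exact HeightOneSpectrum.ext h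

/-- Growth of the two-Selmer group in extensions of bounded degree of the members of the tower. -/
theorem growth_aboveQ (p : ℕ) [Fact p.Prime] (hp2 : p ≠ 2) (d : ℕ) {a b a₀ b₀ : ℤ} {i : ℕ}
    (hb0 : b ≠ 0) (hd0 : a ^ 2 - 4 * b ≠ 0)
    (ha : a = 4 ^ i * a₀) (hb : b = 16 ^ i * b₀) (hR : H73IS.Red a₀ b₀)
    (hpos : H73IS.RPos a b) (hS : H73IS.Small a₀ b₀) :
    ∃ C : ℕ, ∀ (L' L : Type) [Field L'] [NumberField L'] [Field L] [NumberField L]
      [Algebra L' L] [IsTotallyReal L], IsR p L' → Module.finrank L' L ≤ d →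
      (∀ w : HeightOneSpectrum (𝓞 L), (2 : 𝓞 L) ∈ w.asIdeal → (2 : 𝓞 L) ∉ w.asIdeal ^ 2) →
      ∀ (E : WeierstrassCurve L), E = ⟨0, (a : L), 0, (b : L), 0⟩ →
      ∀ (P : Finset E.toAffine.Point) (T : Finset ((AlgebraicClosure L ≃ₐ[L] AlgebraicClosure L) →
        (E.baseChange (AlgebraicClosure L)).toAffine.Point)),
      (∀ X : E.toAffine.Point, ∃ p ∈ P, ∃ S, X = p + (S + S)) →
      (∀ f, IsCocycle L E f → IsLocTriv L E f → IsCobound L E (fun σ => f σ + f σ) →
        ∃ t ∈ T, IsCobound L E (fun σ => f σ - t σ)) →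
      2 ^ Module.finrank ℚ L ≤ C * (P.card * T.card) := by
  have hD : (2 * b * (a ^ 2 - 4 * b)) ≠ 0 :=
    mul_ne_zero (mul_ne_zero two_ne_zero hb0) hd0
  obtain ⟨s, hs⟩ := bad_count (p := p) hp2 hD
  refine ⟨8 ^ (d * s) * 2, ?_⟩
  intro L' L _ _ _ _ _ _ hL' hd hunr E hE P T hP hT
  have h : H73IS.IsTw E (a : L) (b : L) := by
    subst hE
    refine ⟨rfl, rfl, rfl, rfl, rfl, by exact_mod_cast hb0, ?_, two_ne_zero⟩
    exact_mod_cast hd0
  refine (growthQ hb0 hd0 ha hb hR hpos hS hunr h P hP T hT).trans ?_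
  rw [mul_assoc (8 ^ (d * s)) 2]
  refine Nat.mul_le_mul_right _ (Nat.pow_le_pow_right (n := 8) (by norm_num) ?_)
  exact (ncard_above (K := L') hD).trans (Nat.mul_le_mul hd (hs L' hL'))

/-- Growth of the two-Selmer group in the towers over `k`; `H1`, `H3` are the two facts on the
tower which are proved elsewhere. -/
theorem growth_k (p : ℕ) [Fact p.Prime] (hp2 : p ≠ 2) (k : Type) [Field k] [NumberField k]
    (H1 : ∀ (L : Type) [Field L] [NumberField L] [Algebra k L], H73IS.IsLay p k L →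
      ∃ (L' : Type) (_ : Field L') (_ : NumberField L') (_ : Algebra L' L), IsR p L' ∧
        Module.finrank L' L ≤ Module.finrank ℚ k)
    (H3 : ∀ (L : Type) [Field L] [NumberField L] [Algebra k L], H73IS.IsLay p k L →
      ∀ w : HeightOneSpectrum (𝓞 L), (2 : 𝓞 L) ∈ w.asIdeal → (2 : 𝓞 L) ∉ w.asIdeal ^ 2)
    {a b a₀ b₀ : ℤ} {i : ℕ}
    (hb0 : b ≠ 0) (hd0 : a ^ 2 - 4 * b ≠ 0)
    (ha : a = 4 ^ i * a₀) (hb : b = 16 ^ i * b₀) (hR : H73IS.Red a₀ b₀)
    (hpos : H73IS.RPos a b) (hS : H73IS.Small a₀ b₀) :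
    ∃ C : ℕ, ∀ (L : Type) [Field L] [NumberField L] [Algebra k L], H73IS.IsLay p k L →
      ∀ (E : WeierstrassCurve L), E = ⟨0, (a : L), 0, (b : L), 0⟩ →
      ∀ (P : Finset E.toAffine.Point) (T : Finset ((AlgebraicClosure L ≃ₐ[L] AlgebraicClosure L) →
        (E.baseChange (AlgebraicClosure L)).toAffine.Point)),
      (∀ X : E.toAffine.Point, ∃ p ∈ P, ∃ S, X = p + (S + S)) →
      (∀ f, IsCocycle L E f → IsLocTriv L E f → IsCobound L E (fun σ => f σ + f σ) →
        ∃ t ∈ T, IsCobound L E (fun σ => f σ - t σ)) →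
      2 ^ Module.finrank ℚ L ≤ C * (P.card * T.card) := by
  obtain ⟨C, hC⟩ := growth_aboveQ p hp2 (Module.finrank ℚ k) hb0 hd0 ha hb hR hpos hS
  refine ⟨C, ?_⟩
  intro L _ _ _ hL E hE P T hP hT
  obtain ⟨L', _, _, _, hL', hd⟩ := H1 L hL
  haveI := hL.1
  exact hC L' L hL' hd (H3 L hL) E hE P T hP hT

end H86IG
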