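import Pool.Agent.H86.IG.Coc
import Pool.Agent.H10.Iso3

/-!
Row Cnt (about 200 lines): counting classes.

PROOF. Copy `count_classes` (Pool/Agent/H10/GrCoh.lean) with the cocycles of `exists_coc` (f i, r i; f i σ + f i σ = 0 because T + T = 0, T_add_T). The only change is at the end: D (= R i - R j - rational point) is two-torsion, D + D = 0. In GrCoh D was fixed by Galois; here D ∈ E[2] with
 f i σ - f j σ = act σ D - D for all σ. Claim: the product r_i r_j is in L^* or in ε L^*, ε := a square root of a^2 - 4 b in L^al; more precisely d_i d_j is a square or d_i d_j (a^2 - 4 b) is a square.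
  D = 0 or D = T: act σ D = D, so f i σ = f j σ for all σ, r i r j is fixed, d_i d_j is a square (fixed_of_galois as at the end of count_classes), i = j by hdist.
  D = (x, 0) with x ≠ 0, x^2 + a x + b = 0: put ε := 2 x + a, ε^2 = a^2 - 4 b ≠ 0. act σ D = (σ x, 0), σ x = x or σ x = -a - x (the other root, i.e. σ ε = ± ε). If σ ε = ε: act σ D = D, f i σ = f j σ. If σ ε = -ε: act σ D - D = T (D + T = (b/x, 0), b/x = -a - x; T ≠ 0), so
   f i σ ≠ f j σ. Hence r i r j ε is fixed by all σ and d_i d_j (a^2 - 4 b) is a square in L.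
 So among three different i, j, l of one fibre {t i = t₀, p (X i) = p₀} two pairs (i,j), (i,l) have D of the second kind, then d_j d_l is a square (times squares), j = l by hdist: every fibre of i ↦ (t i, p (X i)) has at most 2 elements (Finset.card_le_mul_card_image twice, or
 Finset.card_le_mul_card_image with f := fun i => (t i, p (X i)) into T ×ˢ P; X i is only defined inside a fibre of t: choose it after fixing t₀ as in GrCoh, bound each fibre of t by 2 * P.card with card_le_mul_card_image again).
-/

set_option autoImplicit false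
open scoped Classical

open WeierstrassCurve IsDedekindDomain NumberField Pool.Agent.H10

namespace H86IG

variable {L : Type} [Field L] [NumberField L] {V : WeierstrassCurve L}

/-- The sign data of two cocycles whose difference is the coboundary of a two-torsion point. -/
private theorem Cnt_pair {a b : L} (h : H73IS.IsTw V a b)
    {f g : (AlgebraicClosure L ≃ₐ[L] AlgebraicClosure L) →
      (V.baseChange (AlgebraicClosure L)).toAffine.Point} {r s : AlgebraicClosure L}
    {d e : L} (hr2 : r ^ 2 = algebraMap L (AlgebraicClosure L) d)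
    (hs2 : s ^ 2 = algebraMap L (AlgebraicClosure L) e)
    (hf : ∀ σ, (f σ = 0 ∧ σ r = r) ∨
        (f σ = (h.up (φ := algebraMap L (AlgebraicClosure L)) rfl :
          H73IS.IsTw (V.baseChange (AlgebraicClosure L)) _ _).T ∧ σ r = -r))
    (hg : ∀ σ, (g σ = 0 ∧ σ s = s) ∨
        (g σ = (h.up (φ := algebraMap L (AlgebraicClosure L)) rfl :
          H73IS.IsTw (V.baseChange (AlgebraicClosure L)) _ _).T ∧ σ s = -s))
    (D : (V.baseChange (AlgebraicClosure L)).toAffine.Point) (hD : D + D = 0)
    (hfg : ∀ σ, f σ - g σ = act (inv_bc L V) σ D - D) :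
    IsSquare (d * e) ∨ IsSquare (d * e * (a ^ 2 - 4 * b)) := by
  let hE : H73IS.IsTw (V.baseChange (AlgebraicClosure L)) (algebraMap L (AlgebraicClosure L) a) (algebraMap L (AlgebraicClosure L) b) :=
    h.up (φ := algebraMap L (AlgebraicClosure L)) rfl
  have hT0 : hE.T ≠ 0 := Affine.Point.some_ne_zero _
  -- equal values, different values
  have heq : ∀ σ : (AlgebraicClosure L) ≃ₐ[L] (AlgebraicClosure L), f σ = g σ → σ (r * s) = r * s := by
    intro σ h1
    rw [map_mul]
    rcases hf σ with ⟨h2, h3⟩ | ⟨h2, h3⟩ <;> rcases hg σ with ⟨h4, h5⟩ | ⟨h4, h5⟩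
    · rw [h3, h5]
    · exact absurd (by rw [← h4, ← h1, h2]) hT0
    · exact absurd (by rw [← h2, h1, h4]) hT0
    · rw [h3, h5]
      ring
  have hne : ∀ σ : (AlgebraicClosure L) ≃ₐ[L] (AlgebraicClosure L), f σ ≠ g σ → σ (r * s) = -(r * s) := by
    intro σ h1
    rw [map_mul]
    rcases hf σ with ⟨h2, h3⟩ | ⟨h2, h3⟩ <;> rcases hg σ with ⟨h4, h5⟩ | ⟨h4, h5⟩
    · exact absurd (by rw [h2, h4]) h1
    · rw [h3, h5]
      ring
    · rw [h3, h5]
      ring
    · exact absurd (by rw [h2, h4]) h1
  have hfix : (∀ σ : (AlgebraicClosure L) ≃ₐ[L] (AlgebraicClosure L), act (inv_bc L V) σ D = D) → IsSquare (d * e) := by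
    intro h1
    obtain ⟨y, hy⟩ := fixed_of_galois (k := L) (r * s) (fun σ => by
      apply heq
      have h2 := hfg σ
      rw [h1 σ, sub_self] at h2
      exact sub_eq_zero.1 h2)
    refine ⟨y, ?_⟩
    apply (algebraMap L (AlgebraicClosure L)).injective
    rw [map_mul, map_mul, hy, ← hr2, ← hs2]
    ring
  rcases D with _ | ⟨x, y, hxy⟩
  · exact Or.inl (hfix fun σ => map_zero _)
  · have two : (2 : (AlgebraicClosure L)) ≠ 0 := hE.two
    have hy0 : y = 0 := by
      have h1 := eq_neg_of_add_eq_zero_left hD
      rw [Affine.Point.neg_some, Affine.Point.some.injEq] at h1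
      have h2 := h1.2
      rw [Affine.negY, hE.a₁, hE.a₃] at h2
      have h3 : (2 : (AlgebraicClosure L)) * y = 0 := by linear_combination h2
      exact (mul_eq_zero.1 h3).resolve_left two
    subst hy0
    have hcur : x * (x ^ 2 + algebraMap L (AlgebraicClosure L) a * x + algebraMap L (AlgebraicClosure L) b) = 0 := by
      have h1 := (Affine.equation_iff (W := (V.baseChange (AlgebraicClosure L)).toAffine) x 0).1 hxy.1
      rw [hE.a₁, hE.a₂, hE.a₃, hE.a₄, hE.a₆] at h1
      linear_combination -h1
    have hact : ∀ σ : (AlgebraicClosure L) ≃ₐ[L] (AlgebraicClosure L), ∃ hh, act (inv_bc L V) σ (Affine.Point.some x 0 hxy) =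
        Affine.Point.some (σ x) (σ 0) hh := fun σ => ⟨_, rfl⟩
    rcases mul_eq_zero.1 hcur with hx | hx
    · left
      apply hfix
      intro σ
      obtain ⟨hh, h1⟩ := hact σ
      rw [h1, Affine.Point.some.injEq, hx, map_zero]
      exact ⟨rfl, rfl⟩
    · right
      set ε : (AlgebraicClosure L) := 2 * x + algebraMap L (AlgebraicClosure L) a with hε
      have hε2 : ε ^ 2 = algebraMap L (AlgebraicClosure L) (a ^ 2 - 4 * b) := by
        rw [hε, map_sub, map_mul, map_pow, map_ofNat]
        linear_combination 4 * hx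
      have hε0 : ε ≠ 0 := by
        intro h1
        apply h.hd
        apply (algebraMap L (AlgebraicClosure L)).injective
        rw [← hε2, h1, map_zero]
        ring
      obtain ⟨y, hy⟩ := fixed_of_galois (k := L) (r * s * ε) (fun σ => by
        have h1 : σ ε = ε ∨ σ ε = -ε := by
          refine sq_eq_sq_iff_eq_or_eq_neg.1 ?_
          rw [← map_pow, hε2, σ.commutes]
        have h2 : σ ε = 2 * σ x + algebraMap L (AlgebraicClosure L) a := by
          rw [hε, map_add, map_mul, map_ofNat, σ.commutes]
        obtain ⟨hh, h3⟩ := hact σ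
        rw [map_mul]
        rcases h1 with h1 | h1
        · have h4 : σ x = x := by
            have : (2 : (AlgebraicClosure L)) * σ x = 2 * x := by
              rw [h2] at h1
              linear_combination h1
            exact mul_left_cancel₀ two this
          rw [h1, heq]
          have h5 := hfg σ
          rw [h3] at h5
          have h6 : Affine.Point.some (σ x) (σ 0) hh = Affine.Point.some x 0 hxy := by
            rw [Affine.Point.some.injEq, map_zero]
            exact ⟨h4, rfl⟩
          rw [h6, sub_self] at h5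
          exact sub_eq_zero.1 h5
        · rw [h1, hne]
          · ring
          · intro h4
            have h5 := hfg σ
            rw [h3, h4, sub_self] at h5
            have h6 := (sub_eq_zero.1 h5.symm)
            rw [Affine.Point.some.injEq] at h6
            rw [h6.1] at h2
            apply hε0
            have h7 : (2 : (AlgebraicClosure L)) * ε = 0 := by
              linear_combination hε - h2 + h1
            exact (mul_eq_zero.1 h7).resolve_left two)
      refine ⟨y, ?_⟩
      apply (algebraMap L (AlgebraicClosure L)).injective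
      rw [map_mul, map_mul, map_mul, hy, ← hr2, ← hs2, ← hε2]
      ring

theorem count_classesQ {a b : L} (h : H73IS.IsTw V a b) {ι : Type} [Fintype ι] (d : ι → L)
    (hd0 : ∀ i, d i ≠ 0) (hfin : ∀ i, H73IS.FinQ L (-2 * a) (a ^ 2 - 4 * b) (d i))
    (hinf : ∀ i, H73IS.InfQ L (-2 * a) (a ^ 2 - 4 * b) (d i))
    (hdist : ∀ i j, IsSquare (d i * d j) → i = j)
    (P : Finset V.toAffine.Point) (hP : ∀ X : V.toAffine.Point, ∃ p ∈ P, ∃ S, X = p + (S + S))
    (T : Finset ((AlgebraicClosure L ≃ₐ[L] AlgebraicClosure L) →
      (V.baseChange (AlgebraicClosure L)).toAffine.Point))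
    (hT : ∀ f, IsCocycle L V f → IsLocTriv L V f → IsCobound L V (fun σ => f σ + f σ) →
      ∃ t ∈ T, IsCobound L V (fun σ => f σ - t σ)) :
    Fintype.card ι ≤ 2 * (P.card * T.card) := by
  set iL := inv_bc (Ω := AlgebraicClosure L) L V with hiL
  have hL : V.map (algebraMap L (AlgebraicClosure L)) = V.baseChange (AlgebraicClosure L) := rfl
  have key := fun i => exists_coc h (hd0 i) (hfin i) (hinf i)
  choose f r hfc hfl hr0 hr2 hsg using key
  have hf2 : ∀ i σ, f i σ + f i σ = 0 := by
    intro i σ
    rcases hsg i σ with ⟨h1, -⟩ | ⟨h1, -⟩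
    · rw [h1, add_zero]
    · rw [h1]
      exact H73IS.T_add_T _
  have hcb : ∀ i, ∃ t ∈ T, IsCobound L V (fun σ => f i σ - t σ) := by
    intro i
    apply hT _ (hfc i) (hfl i)
    rw [isCobound_iff]
    exact ⟨0, fun σ => by rw [hf2, map_zero, sub_zero]⟩
  choose t ht hcob using hcb
  have hdd : a ^ 2 - 4 * b ≠ 0 := h.hd
  have hfib : ∀ t₀ ∈ Finset.univ.image t,
      (Finset.univ.filter fun i => t i = t₀).card ≤ 2 * P.card := by
    intro t₀ ht₀
    rw [Finset.mem_image] at ht₀
    obtain ⟨i₀, -, hi₀⟩ := ht₀
    have hR : ∀ i, t i = t₀ → ∃ R : (V.baseChange (AlgebraicClosure L)).toAffine.Point,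
        ∀ σ, f i σ - f i₀ σ = act iL σ R - R := by
      intro i hi
      obtain ⟨Q, hQ⟩ := (isCobound_iff _).mp (hcob i)
      obtain ⟨Q₀, hQ₀⟩ := (isCobound_iff _).mp (hcob i₀)
      refine ⟨Q - Q₀, fun σ => ?_⟩
      have e1 : f i σ - t i σ = act iL σ Q - Q := hQ σ
      have e2 : f i₀ σ - t i₀ σ = act iL σ Q₀ - Q₀ := hQ₀ σ
      rw [hi] at e1
      rw [hi₀] at e2
      rw [map_sub]
      calc f i σ - f i₀ σ = (f i σ - t₀ σ) - (f i₀ σ - t₀ σ) := by abel
        _ = _ := by rw [e1, e2]; abel
    choose! R hR using hR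
    have hX : ∀ i, t i = t₀ → ∃ X : V.toAffine.Point,
        pm (algebraMap L (AlgebraicClosure L)) hL X = R i + R i := by
      intro i hi
      refine pm_descent hL iL _ fun σ => ?_
      have e1 := hR i hi σ
      rw [map_add, ← sub_eq_zero]
      calc act iL σ (R i) + act iL σ (R i) - (R i + R i) =
          (act iL σ (R i) - R i) + (act iL σ (R i) - R i) := by abel
        _ = (f i σ - f i₀ σ) + (f i σ - f i₀ σ) := by rw [← e1]
        _ = (f i σ + f i σ) - (f i₀ σ + f i₀ σ) := by abel
        _ = 0 := by rw [hf2, hf2, sub_zero]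
    choose! X hX using hX
    choose p hp S hS using hP
    -- two classes of the same fibre
    have hpair : ∀ i j, t i = t₀ → t j = t₀ → p (X i) = p (X j) →
        IsSquare (d i * d j) ∨ IsSquare (d i * d j * (a ^ 2 - 4 * b)) := by
      intro i j hi hj hij
      set j₀ := pm (algebraMap L (AlgebraicClosure L)) hL with hj₀
      set D := R i - R j - j₀ (S (X i) - S (X j)) with hD
      have hinv : ∀ (σ : AlgebraicClosure L ≃ₐ[L] AlgebraicClosure L) (Y : V.toAffine.Point),
          act iL σ (j₀ Y) = j₀ Y := by
        intro σ Y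
        unfold act
        rw [hj₀, pm_pm]
        exact pm_congr _ _ (fun x => σ.commutes x) _
      have hDD : D + D = 0 := by
        have e1 := hX i hi
        have e2 := hX j hj
        have e3 : X i - X j = (S (X i) - S (X j)) + (S (X i) - S (X j)) := by
          conv_lhs => rw [hS (X i), hS (X j), hij]
          abel
        have e4 := congrArg j₀ e3
        rw [map_sub, map_add, e1, e2] at e4
        calc D + D = (R i + R i - (R j + R j)) - (j₀ (S (X i) - S (X j)) +
            j₀ (S (X i) - S (X j))) := by rw [hD]; abel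
          _ = 0 := by rw [e4, sub_self]
      refine Cnt_pair h (hr2 i) (hr2 j) (hsg i) (hsg j) D hDD fun σ => ?_
      have e1 := hR i hi σ
      have e2 := hR j hj σ
      have e3 : act iL σ D = act iL σ (R i) - act iL σ (R j) - j₀ (S (X i) - S (X j)) := by
        rw [hD, map_sub, map_sub, hinv]
      calc f i σ - f j σ = (f i σ - f i₀ σ) - (f j σ - f i₀ σ) := by abel
        _ = (act iL σ (R i) - R i) - (act iL σ (R j) - R j) := by rw [e1, e2]
        _ = (act iL σ (R i) - act iL σ (R j) - j₀ (S (X i) - S (X j))) - D := by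
            rw [hD]
            abel
        _ = act iL σ D - D := by rw [e3]
    have h2 := Finset.card_le_mul_card_image (f := fun i => p (X i))
      (Finset.univ.filter fun i => t i = t₀) 2 (by
        intro p₀ _
        by_contra hcon
        push Not at hcon
        obtain ⟨i, hi, j, hj, l, hl, hij, hil, hjl⟩ := Finset.two_lt_card.1 hcon
        simp only [Finset.mem_filter, Finset.mem_univ, true_and] at hi hj hl
        have s1 := (hpair i j hi.1 hj.1 (hi.2.trans hj.2.symm)).resolve_left
          fun h3 => hij (hdist _ _ h3)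
        have s2 := (hpair i l hi.1 hl.1 (hi.2.trans hl.2.symm)).resolve_left
          fun h3 => hil (hdist _ _ h3)
        obtain ⟨u, hu⟩ := s1
        obtain ⟨v, hv⟩ := s2
        apply hjl
        apply hdist
        refine ⟨u * v / (d i * (a ^ 2 - 4 * b)), ?_⟩
        have hdi := hd0 i
        field_simp
        linear_combination (d i * d l * (a ^ 2 - 4 * b)) * hu + u * u * hv)
    refine h2.trans (Nat.mul_le_mul_left _ (Finset.card_le_card ?_))
    intro x hx
    rw [Finset.mem_image] at hx
    obtain ⟨i, -, rfl⟩ := hx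
    exact hp _
  have h1 := Finset.card_le_mul_card_image (f := t) Finset.univ (2 * P.card) hfib
  rw [Finset.card_univ] at h1
  refine h1.trans ?_
  rw [mul_assoc]
  refine Nat.mul_le_mul_left _ (Nat.mul_le_mul_left _ (Finset.card_le_card ?_))
  intro x hx
  rw [Finset.mem_image] at hx
  obtain ⟨i, -, rfl⟩ := hx
  exact ht i

end H86IG
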