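import Mathlib

/-!
Row Ff (about 110 lines): a point with nonsquare x over a finite field.

PROOF. g x := x^2 + A x + c. Suppose not. For x nonsquare: x g(x) is a nonsquare, so g(x) ≠ 0 and g(x) is a square (quadraticChar multiplicative; or: product of two nonsquares is a square, FiniteField lemmas / quadraticChar).
 Fix a nonsquare n (FiniteField.exists_nonsquare). For s : kˣ put x = n s^2 (nonsquare), y_x a chosen square root of g(x) (≠ 0), s_x a chosen square root of x/n (depends only on x; s_x = ± s). Define Φ (some s) := y_x (s/s_x) + x + A/2 and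
 Φ none := y0 + A/2 with y0^2 = c. Each value is of the form y + x + A/2 with y^2 = g(x), so (y + x + A/2)(y - x - A/2) = c - A^2/4 =: m ≠ 0: Φ lands in the nonzero elements, and x, y are determined by Φ: if z = y + x + A/2 then y - x - A/2 = m/z,
 y = (z + m/z)/2, x = (z - m/z)/2 - A/2. So Φ (some s) = Φ (some s') gives x = x', s_x = s_x', y equal: y_x s/s_x = y_x s'/s_x, s = s'; Φ none has x = 0, different from n s^2. So Φ : Option kˣ → kˣ is injective: contradiction with the cardinality.
-/

set_option autoImplicit false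

namespace H86IG

theorem Ff_mul {k : Type*} [Field k] [Finite k] (h2 : (2 : k) ≠ 0) {a b : k}
    (ha : ¬ IsSquare a) (hb : ¬ IsSquare b) : IsSquare (a * b) := by
  classical
  have : Fintype k := Fintype.ofFinite k
  have hc : ringChar k ≠ 2 := by
    intro h
    apply h2
    have := ringChar.spec k 2
    rw [h] at this
    exact_mod_cast this.2 dvd_rfl
  have ha0 : a ≠ 0 := by rintro rfl; exact ha (IsSquare.zero)
  have hb0 : b ≠ 0 := by rintro rfl; exact hb (IsSquare.zero)
  have h1 := quadraticChar_neg_one_iff_not_isSquare.2 ha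
  have h3 := quadraticChar_neg_one_iff_not_isSquare.2 hb
  rw [← quadraticChar_one_iff_isSquare (mul_ne_zero ha0 hb0), map_mul, h1, h3]
  norm_num

theorem exists_nonsquare_point {k : Type*} [Field k] [Finite k] (h2 : (2 : k) ≠ 0) {A c : k}
    (hc : c ≠ 0) (hd : A ^ 2 - 4 * c ≠ 0) (hsq : IsSquare c) :
    ∃ x : k, ¬ IsSquare x ∧ IsSquare (x * (x ^ 2 + A * x + c)) := by
  classical
  have : Fintype k := Fintype.ofFinite k
  by_contra hno
  push Not at hno
  have hch : ringChar k ≠ 2 := by
    intro h
    apply h2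
    have := ringChar.spec k 2
    rw [h] at this
    exact_mod_cast this.2 dvd_rfl
  have h4 : (4 : k) ≠ 0 := by
    have : (4 : k) = 2 * 2 := by norm_num
    rw [this]; exact mul_ne_zero h2 h2
  obtain ⟨n, hn⟩ := FiniteField.exists_nonsquare (F := k) hch
  have hn0 : n ≠ 0 := by rintro rfl; exact hn (IsSquare.zero)
  have hg0 : ∀ x : k, ¬ IsSquare x → x ^ 2 + A * x + c ≠ 0 := by
    intro x hx h
    apply hno x hx
    rw [h, mul_zero]; exact IsSquare.zero
  have hgs : ∀ x : k, ¬ IsSquare x → ∃ y, x ^ 2 + A * x + c = y * y := by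
    intro x hx
    by_contra h
    exact hno x hx (Ff_mul h2 hx h)
  have hSq : ∀ x : k, ¬ IsSquare x → ∃ s, x * n = s * s := fun x hx => Ff_mul h2 hx hn
  choose! Y hY using hgs
  choose! S hS using hSq
  obtain ⟨y0, hy0⟩ := hsq
  have hxs : ∀ s : kˣ, ¬ IsSquare (n * (s : k) ^ 2) := by
    rintro s ⟨r, hr⟩
    apply hn
    refine ⟨r / s, ?_⟩
    have hs : (s : k) ≠ 0 := s.ne_zero
    field_simp
    linear_combination hr
  have key : ∀ x y : k, y ^ 2 = x ^ 2 + A * x + c →
      (y + x + A / 2) * (y - x - A / 2) = c - A ^ 2 / 4 := by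
    intro x y h
    have e1 : A ^ 2 / 4 = (A / 2) ^ 2 := by rw [div_pow]; norm_num
    have e2 : 2 * (A / 2) = A := mul_div_cancel₀ A h2
    rw [e1]
    linear_combination h - x * e2
  have hm : c - A ^ 2 / 4 ≠ 0 := by
    intro h
    apply hd
    field_simp at h
    linear_combination -h
  have key0 : ∀ x y : k, y ^ 2 = x ^ 2 + A * x + c → y + x + A / 2 ≠ 0 := by
    intro x y h h0
    apply hm
    rw [← key x y h, h0, zero_mul]
  have keyI : ∀ x y x' y' : k, y ^ 2 = x ^ 2 + A * x + c → y' ^ 2 = x' ^ 2 + A * x' + c →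
      y + x + A / 2 = y' + x' + A / 2 → x = x' ∧ y = y' := by
    intro x y x' y' h h' e
    have e1 := key x y h
    have e2 := key x' y' h'
    rw [e] at e1
    have e3 : y - x - A / 2 = y' - x' - A / 2 :=
      mul_left_cancel₀ (key0 x' y' h') (e1.trans e2.symm)
    have hx : 2 * x = 2 * x' := by linear_combination e - e3
    have hy : 2 * y = 2 * y' := by linear_combination e + e3
    exact ⟨mul_left_cancel₀ h2 hx, mul_left_cancel₀ h2 hy⟩
  let xx : kˣ → k := fun s => n * (s : k) ^ 2
  let yy : kˣ → k := fun s => Y (xx s) * (n * s / S (xx s))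
  have hS0 : ∀ s : kˣ, S (xx s) ≠ 0 := by
    intro s h
    have := hS (xx s) (hxs s)
    rw [h, mul_zero] at this
    have h3 : xx s = 0 := (mul_eq_zero.1 this).resolve_right hn0
    exact hxs s (by show IsSquare (xx s); rw [h3]; exact IsSquare.zero)
  have hyy : ∀ s : kˣ, (yy s) ^ 2 = (xx s) ^ 2 + A * xx s + c := by
    intro s
    have h1 := hY (xx s) (hxs s)
    have h3 := hS (xx s) (hxs s)
    have h5 : (n * (s : k) / S (xx s)) ^ 2 = 1 := by
      rw [div_pow, div_eq_one_iff_eq (pow_ne_zero 2 (hS0 s)), pow_two (S (xx s)), ← h3]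
      show (n * (s : k)) ^ 2 = n * (s : k) ^ 2 * n
      ring
    show (Y (xx s) * (n * s / S (xx s))) ^ 2 = _
    rw [mul_pow, h5, mul_one, h1, pow_two]
  have hy00 : y0 ^ 2 = (0 : k) ^ 2 + A * 0 + c := by rw [hy0]; ring
  let Φ : Option kˣ → kˣ := fun o => match o with
    | none => Units.mk0 (y0 + 0 + A / 2) (key0 0 y0 hy00)
    | some s => Units.mk0 (yy s + xx s + A / 2) (key0 (xx s) (yy s) (hyy s))
  have hinj : Function.Injective Φ := by
    intro o o' h
    have h' := congrArg (fun u : kˣ => (u : k)) h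
    rcases o with _ | s <;> rcases o' with _ | s'
    · rfl
    · exfalso
      have h6 : y0 + 0 + A / 2 = yy s' + xx s' + A / 2 := h'
      have := (keyI _ _ _ _ hy00 (hyy s') h6).1
      exact hxs s' (by show IsSquare (xx s'); rw [← this]; exact IsSquare.zero)
    · exfalso
      have h6 : yy s + xx s + A / 2 = y0 + 0 + A / 2 := h'
      have := (keyI _ _ _ _ (hyy s) hy00 h6).1
      exact hxs s (by show IsSquare (xx s); rw [this]; exact IsSquare.zero)
    · have h6 : yy s + xx s + A / 2 = yy s' + xx s' + A / 2 := h'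
      obtain ⟨hx, hy⟩ := keyI _ _ _ _ (hyy s) (hyy s') h6
      have hy' : Y (xx s) * (n * (s : k) / S (xx s)) = Y (xx s') * (n * (s' : k) / S (xx s')) := hy
      rw [← hx] at hy'
      have hY0 : Y (xx s) ≠ 0 := by
        intro h0
        have := hY (xx s) (hxs s)
        rw [h0, mul_zero] at this
        exact hg0 (xx s) (hxs s) this
      have h7 := mul_left_cancel₀ hY0 hy'
      rw [div_left_inj' (hS0 s)] at h7
      have h8 := mul_left_cancel₀ hn0 h7
      rw [Units.ext h8]
  have hcard := Fintype.card_le_of_injective Φ hinj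
  rw [Fintype.card_option] at hcard
  omega

end H86IG
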