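import Pool.Agent.H86.IG.Df

/-!
Row Rl (about 60 lines): the real places.

PROOF. a' := -2 a, b' := a^2 - 4 b. x > 0: a square: QPt.isSquare. x < 0: find M, e = 1, N with x N^2 = x^2 M^4 + a' x M^2 + b', i.e. with X := x M^2 ≤ 0: X^2 + a' X + b' ≤ 0 then N := sqrt ((X^2 + a' X + b')/x).
 RPos: (i) a^2 < 4 b: b' < 0: X = 0 (M = 0). (ii) 0 < b, a < 0, (a^2 ≥ 4b): take X = a (< 0): X^2 + a' X + b' = a^2 - 2 a^2 + a^2 - 4 b = -4 b < 0; M := sqrt (a/x).
unit_realQ: as `unit_real` in Pool/Agent/H10/GrPlace.lean: transport along e := InfinitePlace.Completion.ringEquivRealOfIsReal, QPt.map e.symm.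
-/

set_option autoImplicit false

open WithZero Pool.Agent.H10 NumberField

namespace H86IG

theorem qpt_real {a b : ℤ} (h : H73IS.RPos a b) {x : ℝ} (hx : x ≠ 0) :
    H73IS.QPt (-2 * (a : ℝ)) ((a : ℝ) ^ 2 - 4 * (b : ℝ)) x := by
  rcases lt_or_gt_of_ne hx with hneg | hpos
  · rcases h with h1 | ⟨h1, h2⟩
    · have hb : (a : ℝ) ^ 2 - 4 * (b : ℝ) < 0 := by
        have : (a : ℝ) ^ 2 < 4 * (b : ℝ) := by exact_mod_cast h1
        linarith
      refine ⟨0, 1, Real.sqrt (((a : ℝ) ^ 2 - 4 * (b : ℝ)) / x), Or.inr one_ne_zero, ?_⟩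
      rw [Real.sq_sqrt (div_nonneg_of_nonpos hb.le hneg.le)]
      field_simp
      ring
    · have ha : (a : ℝ) < 0 := by exact_mod_cast h2
      have hb : (0 : ℝ) < b := by exact_mod_cast h1
      have hM : Real.sqrt ((a : ℝ) / x) ^ 2 = (a : ℝ) / x :=
        Real.sq_sqrt (div_nonneg_of_nonpos ha.le hneg.le)
      refine ⟨Real.sqrt ((a : ℝ) / x), 1, Real.sqrt ((-4 * (b : ℝ)) / x), Or.inr one_ne_zero, ?_⟩
      have hM4 : Real.sqrt ((a : ℝ) / x) ^ 4 = ((a : ℝ) / x) ^ 2 := by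
        calc Real.sqrt ((a : ℝ) / x) ^ 4 = (Real.sqrt ((a : ℝ) / x) ^ 2) ^ 2 := by ring
          _ = ((a : ℝ) / x) ^ 2 := by rw [hM]
      rw [Real.sq_sqrt (div_nonneg_of_nonpos (by linarith) hneg.le), hM4, hM]
      field_simp
      ring
  · exact H73IS.QPt.isSquare hx ⟨Real.sqrt x, (Real.mul_self_sqrt hpos.le).symm⟩

theorem unit_realQ {L : Type} [Field L] [NumberField L] [IsTotallyReal L] {a b : ℤ}
    (h : H73IS.RPos a b) (v : InfinitePlace L) {x : L} (hx : x ≠ 0) :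
    H73IS.QPt (-2 * (a : v.Completion)) ((a : v.Completion) ^ 2 - 4 * (b : v.Completion))
      (algebraMap L v.Completion x) := by
  have hv : v.IsReal := IsTotallyReal.isReal v
  let e := InfinitePlace.Completion.ringEquivRealOfIsReal hv
  set y : v.Completion := algebraMap L v.Completion x with hy
  have hy0 : e y ≠ 0 := by
    rw [Ne, EmbeddingLike.map_eq_zero_iff, hy, map_eq_zero]
    exact hx
  have key2 := (qpt_real h hy0).map e.symm.toRingHom
  have e1 : ∀ n : ℤ, e.symm.toRingHom (n : ℝ) = (n : v.Completion) := fun n => map_intCast _ n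
  have e2 : e.symm.toRingHom (e y) = y := e.symm_apply_apply y
  rw [map_mul, map_sub, map_mul, map_pow, map_neg, map_ofNat, map_ofNat, e1, e1, e2] at key2
  exact key2

end H86IG
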