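import Pool.Agent.H86.IG.Pig
import Pool.Agent.H86.IG.Gd
import Pool.Agent.H86.IG.Rl
import Pool.Agent.H86.IG.Cnt
import Pool.Agent.H10.GrowTower

/-!
Growth of the two-Selmer group in real cyclotomic towers, curves with one rational point of order two (assembly).
-/

set_option autoImplicit false
set_option linter.style.haveILetI false
open scoped Classical

open WithZero WeierstrassCurve IsDedekindDomain NumberField NumberField.Units Pool.Agent.H10 H5SW

namespace H86IG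

/-- The isogenous curve after scaling. -/
theorem small_scale {a b a₀ b₀ : ℤ} {i : ℕ} (ha : a = 4 ^ i * a₀) (hb : b = 16 ^ i * b₀)
    (hR : H73IS.Red a₀ b₀) (hS : H73IS.Small a₀ b₀) :
    ∃ A c : ℤ, -2 * a = 4 ^ (i + 1) * A ∧ a ^ 2 - 4 * b = 16 ^ (i + 1) * c ∧
      b = 16 ^ i * (A ^ 2 - 4 * c) ∧ ¬ H73IS.Small A c := by
  obtain ⟨h1, h2⟩ := hS
  obtain ⟨m, hm⟩ : ∃ m : ℤ, a₀ = 2 * m := ⟨a₀ / 2, by omega⟩
  have h3 : a₀ / 2 = m := by omega
  rw [h3] at h2
  obtain ⟨c, hc⟩ : ∃ c : ℤ, b₀ - m ^ 2 = 4 * c := ⟨(b₀ - m ^ 2) / 4, by omega⟩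
  refine ⟨-m, -c, ?_, ?_, ?_, ?_⟩
  · rw [ha, hm, pow_succ]; ring
  · have e16 : (16 : ℤ) ^ i = (4 ^ i) ^ 2 := by rw [← pow_mul, mul_comm, pow_mul]; norm_num
    have e : b₀ = m ^ 2 + 4 * c := by linarith
    rw [ha, hb, hm, e, pow_succ, e16]
    ring_nf
    rw [show (16 : ℤ) ^ i = 4 ^ (i * 2) from by rw [e16, ← pow_mul]]
  · have e : b₀ = m ^ 2 + 4 * c := by linarith
    rw [hb, e]; ring
  · rintro ⟨h4, h5⟩
    obtain ⟨n, hn⟩ : ∃ n : ℤ, m = 2 * n := ⟨m / 2, by omega⟩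
    have h6 : -m / 2 = -n := by omega
    rw [h6] at h5
    obtain ⟨d, hd⟩ : ∃ d : ℤ, -c - (-n) ^ 2 = 4 * d := ⟨(-c - (-n) ^ 2) / 4, by omega⟩
    apply hR
    have e : b₀ = -16 * d := by
      have e1 : b₀ = m ^ 2 + 4 * c := by linarith
      rw [e1, hn]
      linear_combination -4 * hd
    constructor <;> omega

section

variable {L : Type} [Field L] [NumberField L] (w : HeightOneSpectrum (𝓞 L))

theorem unit_goodQ {a b : ℤ} (hw : ((2 * b * (a ^ 2 - 4 * b) : ℤ) : 𝓞 L) ∉ w.asIdeal)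
    (u : (𝓞 L)ˣ) :
    H73IS.QPt (-2 * (a : w.adicCompletion L))
      ((a : w.adicCompletion L) ^ 2 - 4 * (b : w.adicCompletion L))
      (algebraMap L (w.adicCompletion L) ((u : 𝓞 L) : L)) := by
  obtain ⟨k, _, _, ρ, hρs, hρ⟩ := exists_resid w
  have h2 : (2 : 𝓞 L) ∉ w.asIdeal := fun h => hw (by
    push_cast
    exact Ideal.mul_mem_right _ _ (Ideal.mul_mem_right _ _ h))
  have nB : (b : 𝓞 L) ∉ w.asIdeal := fun h => hw (by
    push_cast
    exact Ideal.mul_mem_right _ _ (Ideal.mul_mem_left _ _ h))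
  have nC : ((a ^ 2 - 4 * b : ℤ) : 𝓞 L) ∉ w.asIdeal := fun h => hw (by
    push_cast at h ⊢
    exact Ideal.mul_mem_left _ _ h)
  let V : Valuation (w.adicCompletion L) (WithZero (Multiplicative ℤ)) := Valued.v
  have vi : ∀ n : ℤ, V (n : w.adicCompletion L) = w.valuation L (n : L) := by
    intro n
    rw [← map_intCast (algebraMap L (w.adicCompletion L)) n]
    exact valued_algebraMap w _
  have hint : ∀ n : ℤ, (n : 𝓞 L) ∉ w.asIdeal → ρ (n : V.integer) ≠ 0 := by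
    intro n hn h
    rw [hρ] at h
    have e : (((n : V.integer)) : w.adicCompletion L) = (n : w.adicCompletion L) := by
      exact map_intCast (V.integer.subtype) n
    rw [e] at h
    have h3 := vi n
    rw [intCast_val w hn] at h3
    exact absurd h3 h.ne
  let U : V.integer := ⟨algebraMap L (w.adicCompletion L) ((u : 𝓞 L) : L), (unit_valued w u).le⟩
  have hU : ρ U ≠ 0 := by
    intro h
    rw [hρ] at h
    exact absurd (unit_valued w u) h.ne
  have h2k := res_two w hρ h2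
  have key := qpt_good (V := V) (ρ := ρ) hρs hρ (hS_odd w h2) h2k
    (a := ((-2 * a : ℤ) : V.integer)) (b := ((a ^ 2 - 4 * b : ℤ) : V.integer)) (u := U)
    (hint _ nC)
    (by
      have e1 : (((-2 * a : ℤ) : V.integer)) ^ 2 - 4 * ((a ^ 2 - 4 * b : ℤ) : V.integer) =
          2 ^ 4 * ((b : ℤ) : V.integer) := by
        push_cast; ring
      rw [e1, map_mul, map_pow, map_ofNat]
      exact mul_ne_zero (pow_ne_zero _ h2k) (hint b nB)) hU
  have e : ∀ n : ℤ, (((n : V.integer)) : w.adicCompletion L) = (n : w.adicCompletion L) :=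
    fun n => map_intCast (V.integer.subtype) n
  rw [e, e] at key
  push_cast at key
  exact key

/-- Unit classes at odd places. -/
theorem unit_oddQ (h2 : (2 : 𝓞 L) ∉ w.asIdeal) (a b : w.adicCompletion L) (u : Fin 9 → (𝓞 L)ˣ) :
    ∃ i j, i ≠ j ∧ H73IS.QPt a b
      (algebraMap L (w.adicCompletion L) ((u i : 𝓞 L) : L) *
        algebraMap L (w.adicCompletion L) ((u j : 𝓞 L) : L)) := by
  obtain ⟨k, _, _, ρ, hρs, hρ⟩ := exists_resid w
  let V : Valuation (w.adicCompletion L) (WithZero (Multiplicative ℤ)) := Valued.v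
  let U : Fin 9 → V.integer := fun i =>
    ⟨algebraMap L (w.adicCompletion L) ((u i : 𝓞 L) : L), (unit_valued w (u i)).le⟩
  have hU : ∀ i, ρ (U i) ≠ 0 := by
    intro i h
    rw [hρ] at h
    exact absurd (unit_valued w (u i)) h.ne
  have hp : ∀ i j, ¬ IsSquare (U i : w.adicCompletion L) → ¬ IsSquare (U j : w.adicCompletion L) →
      IsSquare ((U i : w.adicCompletion L) * U j) := fun i j hi hj =>
    units_odd (V := V) (ρ := ρ) hρs hρ (hS_odd w h2) (res_two w hρ h2) (hU i) (hU j) hi hj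
  have key : ∃ i j : Fin 9, i ≠ j ∧ IsSquare ((U i : w.adicCompletion L) * U j) := by
    by_cases h0 : IsSquare (U 0 : w.adicCompletion L)
    · by_cases h1 : IsSquare (U 1 : w.adicCompletion L)
      · exact ⟨0, 1, by decide, h0.mul h1⟩
      · by_cases h3 : IsSquare (U 2 : w.adicCompletion L)
        · exact ⟨0, 2, by decide, h0.mul h3⟩
        · exact ⟨1, 2, by decide, hp 1 2 h1 h3⟩
    · by_cases h1 : IsSquare (U 1 : w.adicCompletion L)
      · by_cases h3 : IsSquare (U 2 : w.adicCompletion L)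
        · exact ⟨1, 2, by decide, h1.mul h3⟩
        · exact ⟨0, 2, by decide, hp 0 2 h0 h3⟩
      · exact ⟨0, 1, by decide, hp 0 1 h0 h1⟩
  obtain ⟨i, j, hij, h⟩ := key
  refine ⟨i, j, hij, H73IS.QPt.isSquare ?_ h⟩
  exact mul_ne_zero (ne_zero_of_V (unit_valued w _)) (ne_zero_of_V (unit_valued w _))

/-- Unit classes at the places above two. -/
theorem unit_twoQ {a b a₀ b₀ : ℤ} {i : ℕ} (hb0 : b ≠ 0) (hd0 : a ^ 2 - 4 * b ≠ 0)
    (ha : a = 4 ^ i * a₀) (hb : b = 16 ^ i * b₀) (hR : H73IS.Red a₀ b₀)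
    (hS : H73IS.Small a₀ b₀) (h2 : (2 : 𝓞 L) ∈ w.asIdeal) (h2' : (2 : 𝓞 L) ∉ w.asIdeal ^ 2)
    (u : Fin 9 → (𝓞 L)ˣ) :
    ∃ p q, p ≠ q ∧ H73IS.QPt (-2 * (a : w.adicCompletion L))
      ((a : w.adicCompletion L) ^ 2 - 4 * (b : w.adicCompletion L))
      (algebraMap L (w.adicCompletion L) ((u p : 𝓞 L) : L) *
        algebraMap L (w.adicCompletion L) ((u q : 𝓞 L) : L)) := by
  obtain ⟨A, c, eA, ec, eb, hn⟩ := small_scale ha hb hR hS
  obtain ⟨k, _, _, ρ, hρs, hρ⟩ := exists_resid w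
  let V : Valuation (w.adicCompletion L) (WithZero (Multiplicative ℤ)) := Valued.v
  have v2 : V (2 : w.adicCompletion L) = exp (-1 : ℤ) := by
    change Valued.v (2 : w.adicCompletion L) = _
    rw [valued_ofNat w 2]
    exact val_two_of_unram h2 h2'
  have hH : ∀ x : w.adicCompletion L, V x ≤ exp (-3 : ℤ) → IsSquare (1 + x) := by
    intro x hx
    apply isSquare_one_add two_ne_zero
    refine lt_of_le_of_lt hx ?_
    have := V_four v2
    change _ < V 4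
    rw [this, exp_lt_exp]
    norm_num
  have hc : c ≠ 0 := by
    rintro rfl
    exact hd0 (by rw [ec, mul_zero])
  have hd : A ^ 2 - 4 * c ≠ 0 := by
    intro h
    exact hb0 (by rw [eb, h, mul_zero])
  obtain ⟨p, q, hpq, hC⟩ := two_pigeonQ (V := V) v2 hρs hρ hH hc hd hn
    (fun i => algebraMap L (w.adicCompletion L) ((u i : 𝓞 L) : L)) (fun i => unit_valued w (u i))
  refine ⟨p, q, hpq, ?_⟩
  have h20 : ((2 : w.adicCompletion L)) ^ (i + 1) ≠ 0 := pow_ne_zero _ two_ne_zero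
  rw [← H73IS.QPt.scale h20] at hC
  have e5 : ((2 : w.adicCompletion L) ^ (i + 1)) ^ 2 * (A : w.adicCompletion L) =
      -2 * (a : w.adicCompletion L) := by
    have h1 := congrArg (fun z : ℤ => (z : w.adicCompletion L)) eA
    push_cast at h1
    rw [h1, ← pow_mul, mul_comm (i + 1) 2, pow_mul]
    norm_num
  have e6 : ((2 : w.adicCompletion L) ^ (i + 1)) ^ 4 * (c : w.adicCompletion L) =
      (a : w.adicCompletion L) ^ 2 - 4 * (b : w.adicCompletion L) := by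
    have h1 := congrArg (fun z : ℤ => (z : w.adicCompletion L)) ec
    push_cast at h1
    rw [h1, ← pow_mul, mul_comm (i + 1) 4, pow_mul]
    norm_num
  rw [e5, e6] at hC
  exact hC

end

section

variable {L : Type} [Field L] [NumberField L]

/-- The units whose class is soluble at `w`. -/
def Gw {a b : ℤ} (hb : b ≠ 0) (hd : a ^ 2 - 4 * b ≠ 0) (w : HeightOneSpectrum (𝓞 L)) :
    Subgroup (𝓞 L)ˣ where
  carrier := {u | H73IS.QPt (-2 * (a : w.adicCompletion L))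
    ((a : w.adicCompletion L) ^ 2 - 4 * (b : w.adicCompletion L))
    (algebraMap L (w.adicCompletion L) ((u : 𝓞 L) : L))}
  one_mem' := by
    apply H73IS.QPt.isSquare
    · exact ne_zero_of_V (unit_valued w 1)
    · refine ⟨1, ?_⟩
      simp
  mul_mem' := by
    intro x y hx hy
    have n : ∀ u : (𝓞 L)ˣ, algebraMap L (w.adicCompletion L) ((u : 𝓞 L) : L) ≠ 0 := fun u =>
      ne_zero_of_V (unit_valued w u)
    have hd' : (a : w.adicCompletion L) ^ 2 - 4 * (b : w.adicCompletion L) ≠ 0 := by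
      exact_mod_cast hd
    have hb' : (-2 * (a : w.adicCompletion L)) ^ 2 -
        4 * ((a : w.adicCompletion L) ^ 2 - 4 * (b : w.adicCompletion L)) ≠ 0 := by
      have e : (-2 * (a : w.adicCompletion L)) ^ 2 -
        4 * ((a : w.adicCompletion L) ^ 2 - 4 * (b : w.adicCompletion L)) =
        16 * (b : w.adicCompletion L) := by ring
      rw [e]
      exact mul_ne_zero (by norm_num) (by exact_mod_cast hb)
    have := H73IS.QPt.mul hd' hb' (n x) (n y) hx hy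
    change H73IS.QPt _ _ _
    rw [coe_unit_mul, map_mul]
    exact this
  inv_mem' := by
    intro x hx
    have n : ∀ u : (𝓞 L)ˣ, algebraMap L (w.adicCompletion L) ((u : 𝓞 L) : L) ≠ 0 := fun u =>
      ne_zero_of_V (unit_valued w u)
    refine QPt.of_mul_square (n x) (n x⁻¹) hx ?_
    refine ⟨1, ?_⟩
    rw [← map_mul, ← coe_unit_mul, inv_mul_cancel, mul_one]
    exact map_one _

lemma mem_Gw {a b : ℤ} (hb : b ≠ 0) (hd : a ^ 2 - 4 * b ≠ 0) (w : HeightOneSpectrum (𝓞 L))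
    (u : (𝓞 L)ˣ) : u ∈ Gw hb hd w ↔
      H73IS.QPt (-2 * (a : w.adicCompletion L))
        ((a : w.adicCompletion L) ^ 2 - 4 * (b : w.adicCompletion L))
        (algebraMap L (w.adicCompletion L) ((u : 𝓞 L) : L)) := Iff.rfl

lemma sq_mem_Gw {a b : ℤ} (hb : b ≠ 0) (hd : a ^ 2 - 4 * b ≠ 0) (w : HeightOneSpectrum (𝓞 L))
    (x : (𝓞 L)ˣ) : x * x ∈ Gw hb hd w := by
  rw [mem_Gw]
  apply H73IS.QPt.isSquare
  · exact ne_zero_of_V (unit_valued w _)
  rw [coe_unit_mul, map_mul]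
  exact ⟨_, rfl⟩

lemma index_Gw {a b a₀ b₀ : ℤ} {i : ℕ} (hb0 : b ≠ 0) (hd0 : a ^ 2 - 4 * b ≠ 0)
    (ha : a = 4 ^ i * a₀) (hb : b = 16 ^ i * b₀) (hR : H73IS.Red a₀ b₀)
    (hS : H73IS.Small a₀ b₀)
    (hunr : ∀ w : HeightOneSpectrum (𝓞 L), (2 : 𝓞 L) ∈ w.asIdeal →
      (2 : 𝓞 L) ∉ w.asIdeal ^ 2) (w : HeightOneSpectrum (𝓞 L)) :
    Finite ((𝓞 L)ˣ ⧸ Gw hb0 hd0 w) ∧ Nat.card ((𝓞 L)ˣ ⧸ Gw hb0 hd0 w) ≤ 8 := by
  apply index_of_pigeon _ (sq_mem_Gw hb0 hd0 w)
  intro u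
  have key : ∃ p q, p ≠ q ∧ H73IS.QPt (-2 * (a : w.adicCompletion L))
      ((a : w.adicCompletion L) ^ 2 - 4 * (b : w.adicCompletion L))
      (algebraMap L (w.adicCompletion L) ((u p : 𝓞 L) : L) *
        algebraMap L (w.adicCompletion L) ((u q : 𝓞 L) : L)) := by
    by_cases h2 : (2 : 𝓞 L) ∈ w.asIdeal
    · exact unit_twoQ w hb0 hd0 ha hb hR hS h2 (hunr w h2) u
    · exact unit_oddQ w h2 _ _ u
  obtain ⟨p, q, hpq, hC⟩ := key
  refine ⟨p, q, hpq, ?_⟩
  rw [mem_Gw, coe_unit_mul, map_mul]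
  exact hC

/-- Growth of the two-Selmer group. -/
theorem growthQ [IsTotallyReal L] {a b a₀ b₀ : ℤ} {i : ℕ} (hb0 : b ≠ 0)
    (hd0 : a ^ 2 - 4 * b ≠ 0)
    (ha : a = 4 ^ i * a₀) (hb : b = 16 ^ i * b₀) (hR : H73IS.Red a₀ b₀)
    (hpos : H73IS.RPos a b) (hS : H73IS.Small a₀ b₀)
    (hunr : ∀ w : HeightOneSpectrum (𝓞 L), (2 : 𝓞 L) ∈ w.asIdeal →
      (2 : 𝓞 L) ∉ w.asIdeal ^ 2)
    {V : WeierstrassCurve L} (h : H73IS.IsTw V (a : L) (b : L))
    (P : Finset V.toAffine.Point) (hP : ∀ X : V.toAffine.Point, ∃ p ∈ P, ∃ S, X = p + (S + S))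
    (T : Finset ((AlgebraicClosure L ≃ₐ[L] AlgebraicClosure L) →
      (V.baseChange (AlgebraicClosure L)).toAffine.Point))
    (hT : ∀ f, IsCocycle L V f → IsLocTriv L V f → IsCobound L V (fun σ => f σ + f σ) →
      ∃ t ∈ T, IsCobound L V (fun σ => f σ - t σ)) :
    2 ^ Module.finrank ℚ L ≤ 8 ^ {w : HeightOneSpectrum (𝓞 L) |
      ((2 * b * (a ^ 2 - 4 * b) : ℤ) : 𝓞 L) ∈ w.asIdeal}.ncard * (2 * (P.card * T.card)) := by
  set z : ℤ := 2 * b * (a ^ 2 - 4 * b) with hzd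
  have hz0 : z ≠ 0 := by
    rw [hzd]
    exact mul_ne_zero (mul_ne_zero (by norm_num) hb0) hd0
  have hfin := bad_fin (L := L) hz0
  set B := hfin.toFinset with hB
  have hmemB : ∀ w : HeightOneSpectrum (𝓞 L), w ∈ B ↔ (z : 𝓞 L) ∈ w.asIdeal := fun w => by
    rw [hB, Set.Finite.mem_toFinset]; rfl
  have hcardB : {w : HeightOneSpectrum (𝓞 L) | (z : 𝓞 L) ∈ w.asIdeal}.ncard = B.card :=
    Set.ncard_eq_toFinset_card _ hfin
  rw [hcardB]
  let G : HeightOneSpectrum (𝓞 L) → Subgroup (𝓞 L)ˣ := fun w => Gw hb0 hd0 w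
  have hG : ∀ w, Finite ((𝓞 L)ˣ ⧸ G w) ∧ Nat.card ((𝓞 L)ˣ ⧸ G w) ≤ 8 := fun w =>
    index_Gw hb0 hd0 ha hb hR hS hunr w
  haveI : ∀ w : B, Finite ((𝓞 L)ˣ ⧸ G w.1) := fun w => (hG w.1).1
  haveI : Fintype ((w : B) → ((𝓞 L)ˣ ⧸ G w.1)) := Fintype.ofFinite _
  let φ : (𝓞 L)ˣ → ((w : B) → ((𝓞 L)ˣ ⧸ G w.1)) := fun u w => (u : (𝓞 L)ˣ ⧸ G w.1)
  have hfib : ∀ q ∈ Finset.univ.image (fun i => φ (uu L i)),
      (Finset.univ.filter fun i => φ (uu L i) = q).card ≤ 2 * (P.card * T.card) := by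
    intro q hq
    rw [Finset.mem_image] at hq
    obtain ⟨i₀, -, hi₀⟩ := hq
    have hsame : ∀ i, φ (uu L i) = q → ∀ w ∈ B, uu L i₀ * uu L i ∈ G w := by
      intro i hi w hw
      have e1 : (uu L i₀ : (𝓞 L)ˣ ⧸ G w) = uu L i := by
        have e2 := congrFun (hi₀.trans hi.symm) ⟨w, hw⟩
        exact e2
      rw [QuotientGroup.eq] at e1
      have e3 : uu L i₀ * uu L i = ((uu L i₀)⁻¹ * uu L i) * (uu L i₀ * uu L i₀) := by
        rw [mul_mul_mul_comm, inv_mul_cancel, one_mul, mul_comm]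
      rw [e3]
      exact (G w).mul_mem e1 (sq_mem_Gw hb0 hd0 w _)
    have hne : ∀ u : (𝓞 L)ˣ, ((u : 𝓞 L) : L) ≠ 0 := by
      intro u h0
      have : (u : 𝓞 L) = 0 := by exact_mod_cast h0
      exact u.ne_zero this
    have hc := count_classesQ h (ι := {i // φ (uu L i) = q})
      (fun i => (((uu L i₀ * uu L i.1 : (𝓞 L)ˣ) : 𝓞 L) : L)) (fun i => hne _)
      (by
        intro i w
        rw [map_mul, map_sub, map_pow, map_mul, map_neg, map_ofNat, map_ofNat, map_intCast,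
          map_intCast]
        by_cases hw : w ∈ B
        · exact (mem_Gw hb0 hd0 w _).mp (hsame i.1 i.2 w hw)
        · rw [hmemB] at hw
          exact unit_goodQ w hw _)
      (by
        intro i v
        rw [map_mul, map_sub, map_pow, map_mul, map_neg, map_ofNat, map_ofNat, map_intCast,
          map_intCast]
        exact unit_realQ hpos v (hne _))
      (by
        intro i j hij
        have e1 : IsSquare ((((uu L i₀ * uu L i.1) * (uu L i₀ * uu L j.1) : (𝓞 L)ˣ) : 𝓞 L) : L) := by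
          rw [coe_unit_mul]
          exact hij
        have e2 := isSquare_unit e1
        apply Subtype.ext
        apply uu_inj L
        obtain ⟨x, hx⟩ := e2
        refine ⟨x * (uu L i₀)⁻¹, ?_⟩
        have e3 : x * (uu L i₀)⁻¹ * (x * (uu L i₀)⁻¹) =
            (x * x) * ((uu L i₀)⁻¹ * (uu L i₀)⁻¹) := by ac_rfl
        rw [e3, ← hx]
        have e4 : uu L i₀ * uu L i.1 * (uu L i₀ * uu L j.1) * ((uu L i₀)⁻¹ * (uu L i₀)⁻¹) =
            (uu L i₀ * (uu L i₀)⁻¹) * (uu L i₀ * (uu L i₀)⁻¹) * (uu L i.1 * uu L j.1) := by ac_rfl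
        rw [e4, mul_inv_cancel, one_mul, one_mul])
      P hP T hT
    rw [← Fintype.card_subtype]
    exact hc
  have h1 := Finset.card_le_mul_card_image (f := fun i => φ (uu L i)) Finset.univ
    (2 * (P.card * T.card)) hfib
  rw [Finset.card_univ, card_uu L] at h1
  refine h1.trans ?_
  rw [mul_comm]
  refine Nat.mul_le_mul_right _ ?_
  refine (Finset.card_le_univ _).trans ?_
  rw [← Nat.card_eq_fintype_card, Nat.card_pi]
  refine (Finset.prod_le_pow_card _ _ 8 fun w _ => (hG w.1).2).trans ?_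
  rw [Finset.card_univ, Fintype.card_coe]

end

/-- Growth of the two-Selmer group in the real cyclotomic towers. -/
theorem growth_towerQ (p : ℕ) [Fact p.Prime] (hp2 : p ≠ 2) {a b a₀ b₀ : ℤ} {i : ℕ} (hb0 : b ≠ 0)
    (hd0 : a ^ 2 - 4 * b ≠ 0)
    (ha : a = 4 ^ i * a₀) (hb : b = 16 ^ i * b₀) (hR : H73IS.Red a₀ b₀)
    (hpos : H73IS.RPos a b) (hS : H73IS.Small a₀ b₀) :
    ∃ C : ℕ, ∀ (L : Type) [Field L] [NumberField L], IsR p L →
      ∀ (E : WeierstrassCurve L), E = ⟨0, (a : L), 0, (b : L), 0⟩ →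
      ∀ (P : Finset E.toAffine.Point) (T : Finset ((AlgebraicClosure L ≃ₐ[L] AlgebraicClosure L) →
        (E.baseChange (AlgebraicClosure L)).toAffine.Point)),
      (∀ X : E.toAffine.Point, ∃ p ∈ P, ∃ S, X = p + (S + S)) →
      (∀ f, IsCocycle L E f → IsLocTriv L E f → IsCobound L E (fun σ => f σ + f σ) →
        ∃ t ∈ T, IsCobound L E (fun σ => f σ - t σ)) →
      2 ^ Module.finrank ℚ L ≤ C * (P.card * T.card) := by
  have hD : (2 * b * (a ^ 2 - 4 * b)) ≠ 0 :=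
    mul_ne_zero (mul_ne_zero two_ne_zero hb0) hd0
  obtain ⟨s, hs⟩ := bad_count (p := p) hp2 hD
  refine ⟨8 ^ s * 2, ?_⟩
  intro L _ _ hL E hE P T hP hT
  obtain ⟨n, M, F, _, _, _, _, _, _, _, ⟨Tw⟩⟩ := exists_tower (p := p) (K := L) hp2 hL (i := 0)
    (by rw [Module.finrank_self, pow_zero])
  have := hL.1
  have h : H73IS.IsTw E (a : L) (b : L) := by
    subst hE
    refine ⟨rfl, rfl, rfl, rfl, rfl, by exact_mod_cast hb0, ?_, two_ne_zero⟩
    exact_mod_cast hd0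
  refine (growthQ hb0 hd0 ha hb hR hpos hS (two_unramified hp2 Tw) h P hP T hT).trans ?_
  rw [mul_assoc (8 ^ s) 2]
  exact Nat.mul_le_mul_right _ (Nat.pow_le_pow_right (n := 8) (by norm_num) (hs L hL))

end H86IG
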