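import Pool.Agent.H73.IS.Bas

/-!
Row Lbc (about 130 lines): the converse of row Lb of H73/IS: from a point on the genus one curve of the isogenous curve to a point of E over the closure.

PROOF. Given M, e, N. Every τ has τ r = r or τ r = -r (r^2 ∈ F).
 e = 0: M ≠ 0, d N^2 = d^2 M^4, d ≠ 0: d = (N/M^2)^2, so r = ± (element of F), τ r = r for all τ: take R = 0.
 e ≠ 0: w := r M/e, n := r N/e^2 (images of M, e, N under algebraMap), X := w^2 = d M^2/e^2; n^2 = X^2 - 2 a X + a^2 - 4 b = (X - a)^2 - 4 b. x := (X - a + n)/2: x^2 - (X - a) x + b = 0, so x ≠ 0 (b ≠ 0) and b/x = (X - a - n)/2.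
  y := w x. (x, y) is on the curve: x^3 + a x^2 + b x = x^2 (x + a + b/x) = x^2 X = y^2. Nonsingular: from the equation and E elliptic (IsTw: Affine.nonsingular_iff; if y ≠ 0 clear (2 y ≠ 0); if y = 0 then X = 0 (w = 0), x^2 + a x + b = 0 and
  3 x^2 + 2 a x + b = 2 x^2 + a x = x (2 x + a) ≠ 0 because (2 x + a)^2 = a^2 - 4 b ≠ 0); or use that the discriminant is a unit: WeierstrassCurve.Affine.equation_iff_nonsingular.
  R := (x, y). τ r = r: τ w = w, τ n = n, τ x = x, τ y = y: act τ R = R (act is pm, pm_some). τ r = -r: τ w = -w, τ n = -n, τ x = b/x, τ y = -w b/x; and R + T = (b/x, -w b/x) (Affine.Point.add_of_X_ne: slope (y - 0)/(x - 0) = w,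
  X-coordinate w^2 - a - x - 0 = b/x, Y-coordinate -(w (b/x - x) + y) = -w b/x). So act τ R - R = T.
 See row Lb (Pool/Agent/H73/IS/Lb.lean) and Pool/Agent/H10/Bridge*.lean for the style. fixed_of_galois is in Bridge3.
-/

set_option autoImplicit false
open scoped Classical

open WeierstrassCurve IsDedekindDomain NumberField Pool.Agent.H10

namespace H86IG


theorem Lbc_nonsing {Ω : Type*} [Field Ω] {E : WeierstrassCurve Ω} {A B : Ω}
    (hE : H73IS.IsTw E A B) {x y : Ω} (hx : x ≠ 0) (heq : y ^ 2 = x ^ 3 + A * x ^ 2 + B * x) :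
    E.toAffine.Nonsingular x y := by
  rw [Affine.nonsingular_iff, Affine.equation_iff, hE.a₁, hE.a₂, hE.a₃, hE.a₄, hE.a₆]
  refine ⟨by linear_combination heq, ?_⟩
  by_cases hy : y = 0
  · left
    subst hy
    have h1 : x ^ 2 + A * x + B = 0 := by
      apply mul_left_cancel₀ hx
      linear_combination -heq
    have h2 : (2 * x + A) ^ 2 = A ^ 2 - 4 * B := by linear_combination 4 * h1
    have h3 : 2 * x + A ≠ 0 := by
      intro h
      rw [h] at h2
      exact hE.hd (by rw [← h2]; ring)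
    intro h4
    apply mul_ne_zero hx h3
    linear_combination -h4 - h1
  · right
    intro h
    apply mul_ne_zero hE.two hy
    linear_combination h

/-- Adding the point `T`. -/
theorem Lbc_addT {Ω : Type*} [Field Ω] {E : WeierstrassCurve Ω} {A B : Ω}
    (hE : H73IS.IsTw E A B) {x w x' : Ω} (hx : x ≠ 0) (hn : E.toAffine.Nonsingular x (w * x))
    (hn' : E.toAffine.Nonsingular x' (-w * x')) (hs : x' = w ^ 2 - A - x) :
    Affine.Point.some x (w * x) hn + hE.T = Affine.Point.some x' (-w * x') hn' := by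
  unfold H73IS.IsTw.T
  rw [Affine.Point.add_of_X_ne hx]
  have hsl : E.toAffine.slope x 0 (w * x) 0 = w := by
    rw [Affine.slope_of_X_ne hx, sub_zero, sub_zero, mul_div_assoc, div_self hx, mul_one]
  have hX : E.toAffine.addX x 0 w = x' := by
    rw [Affine.addX, hE.a₁, hE.a₂, hs]
    ring
  rw [Affine.Point.some.injEq]
  refine ⟨by rw [hsl, hX], ?_⟩
  rw [hsl, Affine.addY, Affine.negAddY, hX, Affine.negY, hE.a₁, hE.a₃]
  ring

theorem lb_conv {F Ω : Type*} [Field F] [Field Ω] [Algebra F Ω] [IsGalois F Ω]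
    {E : WeierstrassCurve Ω} (h : Inv F E) {a b d : F}
    (hE : H73IS.IsTw E (algebraMap F Ω a) (algebraMap F Ω b)) {r : Ω} (hr : r ≠ 0)
    (hd : r ^ 2 = algebraMap F Ω d) (H : H73IS.QPt (-2 * a) (a ^ 2 - 4 * b) d) :
    ∃ R : E.toAffine.Point, ∀ τ : Ω ≃ₐ[F] Ω,
      (act h τ R - R = 0 ∧ τ r = r) ∨ (act h τ R - R = hE.T ∧ τ r = -r) := by
  set ι : F →+* Ω := algebraMap F Ω with hι
  have hτ : ∀ (τ : Ω ≃ₐ[F] Ω) (c : F), τ (ι c) = ι c := fun τ c => τ.commutes c
  have hr2 : ∀ τ : Ω ≃ₐ[F] Ω, τ r = r ∨ τ r = -r := by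
    intro τ
    apply sq_eq_sq_iff_eq_or_eq_neg.mp
    rw [← map_pow, hd, hτ]
  have hd0 : d ≠ 0 := by
    intro h
    rw [h, map_zero] at hd
    exact hr (pow_eq_zero_iff two_ne_zero |>.mp hd)
  obtain ⟨M, e, N, hMe, hQ⟩ := H
  by_cases he : e = 0
  · subst he
    have hM : M ≠ 0 := by
      rcases hMe with h | h
      · exact h
      · exact absurd rfl h
    have e1 : N ^ 2 = d * M ^ 4 := by
      apply mul_left_cancel₀ hd0
      linear_combination hQ
    have e2 : (N / M ^ 2) ^ 2 = d := by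
      field_simp
      linear_combination e1
    have e3 : r ^ 2 = (ι (N / M ^ 2)) ^ 2 := by rw [hd, ← map_pow, e2]
    refine ⟨0, fun τ => Or.inl ⟨by rw [map_zero, sub_zero], ?_⟩⟩
    rcases sq_eq_sq_iff_eq_or_eq_neg.mp e3 with h4 | h4
    · rw [h4, hτ]
    · rw [h4, map_neg, hτ]
  · have hee : ι e ≠ 0 := (map_ne_zero ι).mpr he
    have h2 : (2 : Ω) ≠ 0 := hE.two
    set w : Ω := r * (ι M / ι e) with hw
    set n : Ω := r * (ι N / ι e ^ 2) with hn
    have hQ' : ι d * ι N ^ 2 = ι d ^ 2 * ι M ^ 4 + (-2 * ι a) * ι d * ι M ^ 2 * ι e ^ 2 +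
        (ι a ^ 2 - 4 * ι b) * ι e ^ 4 := by
      have h3 := congrArg ι hQ
      simpa only [map_mul, map_add, map_sub, map_pow, map_neg, map_ofNat] using h3
    have hX : n ^ 2 = (w ^ 2 - ι a) ^ 2 - 4 * ι b := by
      rw [hn, hw, mul_pow, mul_pow, hd]
      field_simp
      linear_combination hQ'
    set x : Ω := (w ^ 2 - ι a + n) / 2 with hx
    set x' : Ω := (w ^ 2 - ι a - n) / 2 with hx'
    have hxx : x * x' = ι b := by
      rw [hx, hx', div_mul_div_comm, div_eq_iff (mul_ne_zero h2 h2)]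
      linear_combination -hX
    have hsum : x' = w ^ 2 - ι a - x := by
      rw [hx, hx']
      field_simp
      ring
    have hx0 : x ≠ 0 := by
      intro h
      rw [h, zero_mul] at hxx
      exact hE.hb hxx.symm
    have hx0' : x' ≠ 0 := by
      intro h
      rw [h, mul_zero] at hxx
      exact hE.hb hxx.symm
    have hP : E.toAffine.Nonsingular x (w * x) := by
      apply Lbc_nonsing hE hx0
      have h3 : (w * x) ^ 2 = x ^ 2 * w ^ 2 := by ring
      have h4 : w ^ 2 = x' + x + ι a := by rw [hsum]; ring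
      rw [h3, h4]
      linear_combination x * hxx
    have hP' : E.toAffine.Nonsingular x' (-w * x') := by
      apply Lbc_nonsing hE hx0'
      have h3 : (-w * x') ^ 2 = x' ^ 2 * w ^ 2 := by ring
      have h4 : w ^ 2 = x' + x + ι a := by rw [hsum]; ring
      rw [h3, h4]
      linear_combination x' * hxx
    refine ⟨Affine.Point.some x (w * x) hP, fun τ => ?_⟩
    have hact : act h τ (Affine.Point.some x (w * x) hP) =
        Affine.Point.some (τ x) (τ (w * x)) (by
          have h5 := (Affine.map_nonsingular E (τ : Ω →+* Ω).injective x (w * x)).mpr hP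
          have h6 := h τ
          rw [← h6]
          exact h5) := rfl
    have hτ2 : τ 2 = 2 := map_ofNat τ 2
    rcases hr2 τ with hs | hs
    · left
      refine ⟨?_, hs⟩
      have hw1 : τ w = w := by
        rw [hw, map_mul, map_div₀, hτ, hτ, hs]
      have hn1 : τ n = n := by
        rw [hn, map_mul, map_div₀, map_pow, hτ, hτ, hs]
      have hx1 : τ x = x := by
        rw [hx, map_div₀, map_add, map_sub, map_pow, hw1, hn1, hτ, hτ2]
      rw [hact, sub_eq_zero, Affine.Point.some.injEq]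
      exact ⟨hx1, by rw [map_mul, hx1, hw1]⟩
    · right
      refine ⟨?_, hs⟩
      have hw1 : τ w = -w := by
        rw [hw, map_mul, map_div₀, hτ, hτ, hs]; ring
      have hn1 : τ n = -n := by
        rw [hn, map_mul, map_div₀, map_pow, hτ, hτ, hs]; ring
      have hx1 : τ x = x' := by
        rw [hx, hx', map_div₀, map_add, map_sub, map_pow, hw1, hn1, hτ, hτ2, neg_sq,
          ← sub_eq_add_neg]
      rw [sub_eq_iff_eq_add', Lbc_addT hE hx0 hP hP' hsum, hact, Affine.Point.some.injEq]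
      exact ⟨hx1, by rw [map_mul, hx1, hw1]⟩

end H86IG
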