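import Pool.Agent.H86.IG.Df

/-!
Row Lft (about 90 lines): soluble classes at two from a small parameter.

PROOF. All V-lemmas are in Pool/Agent/H10/GrTwo.lean, StarLoc.lean (V_two_mul_lt, V_four, V_four_mul_le, V_mul_le, V_add_le, V_sub_le, V_pow_le, V_int, le_exp_neg_one, ne_zero_of_V).
 Put q := c s^4, u0 := 1 + 2 κ (V u0 = 1), P := 1 + A s + c s^2 (V P = 1), D(u) := u + A s^2 + q/u, E := the element of hE (V E < 1, so V (E/2) ≤ 1).
 Identity: D(u0) - P^2 = 2 E + 4 q κ^2/u0   [1/u0 = 1 - 2 κ + 4 κ^2/u0; (A:F)^2 - A = 2 (A(A-1)/2), (c:F)^2 - c = 2 (c(c-1)/2): integer division is exact]. So D(u0) = P^2 + 4 m, m := E/2 + q κ^2/u0, V m ≤ 1.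
 r := -m/(1 - q), u := u0 + 4 r, V u = 1, V (u u0 - 1) < 1. D(u) - P^2 = 4 m + 4 r - 4 r q/(u u0) = 4 r q (u u0 - 1)/(u u0) (since m = -r (1 - q)), so V (D(u) - P^2) ≤ exp (-2) * exp (-1) = exp (-3) and
 D(u) = P^2 (1 + x) with V x ≤ exp (-3): D(u) = w^2 by hH. QPt with M = 1, e = s, N = w: u w^2 = u^2 + A u s^2 + c s^4. Take δ = u, t = 1: V (u - (1 + 2 κ)) = V (4 r) ≤ exp (-2).
-/

set_option autoImplicit false

open WithZero Pool.Agent.H10

namespace H86IG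

variable {F : Type*} [Field F] {V : Valuation F (WithZero (Multiplicative ℤ))}

theorem twoQ_lift (h2 : V 2 = exp (-1 : ℤ))
    (hH : ∀ x : F, V x ≤ exp (-3 : ℤ) → IsSquare (1 + x)) {A c : ℤ} {s κ : F} (hs : V s ≤ 1)
    (hκ : V κ ≤ 1) (h1 : V (1 - (c : F) * s ^ 4) = 1)
    (hP : V (1 + (A : F) * s + (c : F) * s ^ 2) = 1)
    (hE : V (κ * (1 - (c : F) * s ^ 4) - (((A * (A - 1) / 2 : ℤ) : F) * s ^ 2 +
      ((c * (c - 1) / 2 : ℤ) : F) * s ^ 4 + (A : F) * s + (c : F) * s ^ 2 +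
      (A : F) * c * s ^ 3)) < 1) : TwoQ V (A : F) (c : F) κ := by
  have hA2 : (A : F) ^ 2 - A = 2 * ((A * (A - 1) / 2 : ℤ) : F) := by
    have h3 : A * (A - 1) = 2 * (A * (A - 1) / 2) := by
      have h4 : (2 : ℤ) ∣ A * (A - 1) := by
        rcases Int.even_or_odd A with h | h
        · exact (even_iff_two_dvd.1 h).mul_right _
        · exact (even_iff_two_dvd.1 (h.sub_odd odd_one)).mul_left _
      exact (Int.mul_ediv_cancel' h4).symm
    have h5 := congrArg (Int.cast : ℤ → F) h3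
    rw [Int.cast_mul 2] at h5
    push_cast at h5 ⊢
    linear_combination h5
  have hc2 : (c : F) ^ 2 - c = 2 * ((c * (c - 1) / 2 : ℤ) : F) := by
    have h3 : c * (c - 1) = 2 * (c * (c - 1) / 2) := by
      have h4 : (2 : ℤ) ∣ c * (c - 1) := by
        rcases Int.even_or_odd c with h | h
        · exact (even_iff_two_dvd.1 h).mul_right _
        · exact (even_iff_two_dvd.1 (h.sub_odd odd_one)).mul_left _
      exact (Int.mul_ediv_cancel' h4).symm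
    have h5 := congrArg (Int.cast : ℤ → F) h3
    rw [Int.cast_mul 2] at h5
    push_cast at h5 ⊢
    linear_combination h5
  obtain ⟨a2, ha2⟩ : ∃ a2 : F, a2 = ((A * (A - 1) / 2 : ℤ) : F) := ⟨_, rfl⟩
  obtain ⟨c2, hc2'⟩ : ∃ c2 : F, c2 = ((c * (c - 1) / 2 : ℤ) : F) := ⟨_, rfl⟩
  rw [← ha2] at hA2 hE
  rw [← hc2'] at hc2 hE
  have hAv : V (A : F) ≤ 1 := V_int A
  have hcv : V (c : F) ≤ 1 := V_int c
  obtain ⟨q, hq⟩ : ∃ q : F, q = (c : F) * s ^ 4 := ⟨_, rfl⟩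
  have hqv : V q ≤ 1 := by
    rw [hq]
    exact V_mul_le hcv (V_pow_le hs 4)
  have h20 : (2 : F) ≠ 0 := by
    intro h
    rw [h, map_zero] at h2
    exact exp_ne_zero h2.symm
  obtain ⟨E', hE'⟩ : ∃ E' : F, 2 * E' = κ * (1 - (c : F) * s ^ 4) - (a2 * s ^ 2 +
      c2 * s ^ 4 + (A : F) * s + (c : F) * s ^ 2 + (A : F) * c * s ^ 3) :=
    ⟨(κ * (1 - (c : F) * s ^ 4) - (a2 * s ^ 2 +
      c2 * s ^ 4 + (A : F) * s + (c : F) * s ^ 2 + (A : F) * c * s ^ 3)) / 2, by field_simp⟩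
  have hE'v : V E' ≤ 1 := by
    rw [← hE'] at hE
    have h3 := le_exp_neg_one hE
    rw [map_mul, h2] at h3
    have h4 : exp (-1 : ℤ) * V E' ≤ exp (-1 : ℤ) * 1 := by
      rw [mul_one]
      exact h3
    exact le_of_mul_le_mul_left h4 exp_pos
  obtain ⟨u0, hu0⟩ : ∃ u0 : F, u0 = 1 + 2 * κ := ⟨_, rfl⟩
  have hu0v : V u0 = 1 := by
    rw [hu0]
    exact Valuation.map_one_add_of_lt V (V_two_mul_lt h2 hκ)
  have hu00 : u0 ≠ 0 := ne_zero_of_V hu0v
  have hq0 : 1 - q ≠ 0 := by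
    rw [hq]
    exact ne_zero_of_V h1
  obtain ⟨m, hm⟩ : ∃ m : F, m = E' + q * κ ^ 2 / u0 := ⟨_, rfl⟩
  have hmv : V m ≤ 1 := by
    rw [hm]
    refine V_add_le hE'v ?_
    rw [map_div₀, hu0v, div_one]
    exact V_mul_le hqv (V_pow_le hκ 2)
  obtain ⟨r, hr⟩ : ∃ r : F, r = -m / (1 - q) := ⟨_, rfl⟩
  have hrm : m = -r * (1 - q) := by
    rw [hr]
    field_simp
  have hrv : V r ≤ 1 := by
    rw [hr, map_div₀, Valuation.map_neg, hq, h1, div_one]
    exact hmv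
  obtain ⟨u, hu⟩ : ∃ u : F, u = u0 + 4 * r := ⟨_, rfl⟩
  have hk2 : V (κ + 2 * r) ≤ 1 := V_add_le hκ (V_two_mul_lt h2 hrv).le
  have huv : V u = 1 := by
    have e : u = 1 + 2 * (κ + 2 * r) := by
      rw [hu, hu0]
      ring
    rw [e]
    exact Valuation.map_one_add_of_lt V (V_two_mul_lt h2 hk2)
  have hun : u ≠ 0 := ne_zero_of_V huv
  obtain ⟨P, hPd⟩ : ∃ P : F, P = 1 + (A : F) * s + (c : F) * s ^ 2 := ⟨_, rfl⟩
  rw [← hPd] at hP
  have hP0 : P ≠ 0 := ne_zero_of_V hP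
  have hid0 : u0 + (A : F) * s ^ 2 + q / u0 = P ^ 2 + 4 * m := by
    have e1 : q / u0 = q - 2 * κ * q + 4 * (q * κ ^ 2 / u0) := by
      field_simp
      rw [hu0]
      ring
    rw [hm, e1, hPd, hu0, hq]
    linear_combination (-2) * hE' - s ^ 2 * hA2 - s ^ 4 * hc2
  obtain ⟨y, hy⟩ : ∃ y : F, y = r * q * (u * u0 - 1) / (u * u0) := ⟨_, rfl⟩
  have hyv : V y < 1 := by
    rw [hy, map_div₀, map_mul V u u0, huv, hu0v, mul_one, div_one]
    refine V_mul_lt (V_mul_le hrv hqv) ?_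
    have e : u * u0 - 1 = 2 * (κ + 2 * r + κ + 2 * ((κ + 2 * r) * κ)) := by
      rw [hu, hu0]
      ring
    rw [e]
    refine V_two_mul_lt h2 (V_add_le (V_add_le hk2 hκ) ?_)
    exact (V_two_mul_lt h2 (V_mul_le hk2 hκ)).le
  have hid : u + (A : F) * s ^ 2 + q / u = P ^ 2 + 4 * y := by
    have e1 : q / u = q / u0 - 4 * (r * q / (u * u0)) := by
      rw [hu]
      rw [hu] at hun
      field_simp
      ring
    have e2 : y = r * q - r * q / (u * u0) := by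
      rw [hy]
      field_simp
    rw [e1, e2]
    linear_combination hid0 + 4 * hrm + hu
  obtain ⟨t, ht⟩ := hH (4 * y / P ^ 2) (by
    rw [map_div₀, map_pow, hP, one_pow, div_one]
    exact V_four_mul h2 hyv)
  have hsq : (P * t) ^ 2 = u + (A : F) * s ^ 2 + q / u := by
    rw [hid]
    have e : (P * t) ^ 2 = P ^ 2 * (t * t) := by ring
    rw [e, ← ht]
    field_simp
  refine ⟨u, 1, hun, one_ne_zero, ⟨1, s, P * t, Or.inl one_ne_zero, ?_⟩, ?_⟩
  · rw [hsq, hq]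
    field_simp
  · have e : u * 1 ^ 2 - (1 + 2 * κ) = 4 * r := by
      rw [hu, hu0]
      ring
    rw [e]
    exact V_four_mul_le h2 hrv

end H86IG
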