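import Pool.Agent.H86.IG.Psi
import Pool.Agent.H86.IG.Idx
import Pool.Agent.H73.IS.Mul

/-!
Row Pig (about 150 lines): among nine units at a place above two, two have a soluble product.

PROOF. Copy the proof of `two_pigeon` in Pool/Agent/H10/GrTwoB.lean (theorem two_pigeon, last one of the file) with QPt instead of CPt and the following changes.
 congr, zero (TwoSol.congr, TwoSol.zero in GrTwo.lean): TwoQ V a b κ → V (κ - κ') < 1 → TwoQ V a b κ'; TwoQ V a b 0 (δ = 1: QPt.isSquare).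
 add: TwoQ κ₁, TwoQ κ₂, V κᵢ ≤ 1 → TwoQ (κ₁ + κ₂): δ = δ₁ δ₂ (QPt.mul, H73/IS/Mul), t = t₁ t₂: (1 + 2 κ₁ + e₁)(1 + 2 κ₂ + e₂) = 1 + 2 (κ₁ + κ₂) + 4 κ₁ κ₂ + ...
 K : AddSubgroup k with carrier {x | ∃ κ : V.integer, ρ κ = x ∧ TwoQ V a b κ}; neg: -κ ≡ κ. (If ρ κ = ρ κ' then V (κ - κ') < 1.)
 index: Nat.card (k ⧸ K) ≤ 4 by index_le_four and twoQ_poly (z = ρ Z; V (1 + Z) = 1 from ρ (1 + Z) ≠ 0: val_one_of_res in GrOdd.lean).
 Then nine units, exists_kappa, three in the same coset of K (Fintype.exists_lt_card_fiber_of_mul_lt_card), pairs, four_pair; `QPt` of x from `QPt` of δ and x δ a square: x = δ (s/δ)^2, QPt.sq_mul.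
-/

set_option autoImplicit false

open WithZero Pool.Agent.H10

namespace H86IG

variable {F : Type*} [Field F] {V : Valuation F (WithZero (Multiplicative ℤ))} {k : Type*} [Field k]
  {ρ : V.integer →+* k}

/-- Change by a square. -/
theorem QPt.of_mul_square {K : Type*} [Field K] {a b δ x : K} (hδ : δ ≠ 0) (hx : x ≠ 0)
    (H : H73IS.QPt a b δ) (h : IsSquare (x * δ)) : H73IS.QPt a b x := by
  obtain ⟨s, hs⟩ := h
  have hs0 : s ≠ 0 := by
    rintro rfl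
    rw [mul_zero] at hs
    exact mul_ne_zero hx hδ hs
  have e : x = δ * (s / δ) ^ 2 := by
    field_simp
    linear_combination hs
  rw [e]
  exact (H73IS.QPt.sq_mul (div_ne_zero hs0 hδ)).mpr H

theorem Pig_congr (h2 : V 2 = exp (-1 : ℤ)) {a b κ κ' : F} (h : V (κ - κ') < 1)
    (H : TwoQ V a b κ) : TwoQ V a b κ' := by
  obtain ⟨δ, t, hδ, ht, hC, hv⟩ := H
  refine ⟨δ, t, hδ, ht, hC, ?_⟩
  have e : δ * t ^ 2 - (1 + 2 * κ') = (δ * t ^ 2 - (1 + 2 * κ)) + 2 * (κ - κ') := by ring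
  rw [e]
  exact V_add_le hv (V_two_mul h2 h)

theorem Pig_zero (V : Valuation F (WithZero (Multiplicative ℤ))) (a b : F) : TwoQ V a b 0 := by
  refine ⟨1, 1, one_ne_zero, one_ne_zero, H73IS.QPt.isSquare one_ne_zero ⟨1, by ring⟩, ?_⟩
  have e : (1 : F) * 1 ^ 2 - (1 + 2 * 0) = 0 := by ring
  rw [e, map_zero]
  exact zero_le

theorem Pig_add [CharZero F] (h2 : V 2 = exp (-1 : ℤ)) {a b κ κ' : F} (hb : b ≠ 0)
    (hab : a ^ 2 - 4 * b ≠ 0) (h1 : V κ ≤ 1) (h1' : V κ' ≤ 1)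
    (H : TwoQ V a b κ) (H' : TwoQ V a b κ') : TwoQ V a b (κ + κ') := by
  obtain ⟨δ, t, hδ, ht, hC, hv⟩ := H
  obtain ⟨δ', t', hδ', ht', hC', hv'⟩ := H'
  refine ⟨δ * δ', t * t', mul_ne_zero hδ hδ', mul_ne_zero ht ht', hC.mul hb hab hδ hδ' hC', ?_⟩
  have e : δ * δ' * (t * t') ^ 2 - (1 + 2 * (κ + κ')) =
      4 * (κ * κ') + (1 + 2 * κ) * (δ' * t' ^ 2 - (1 + 2 * κ')) +
      δ' * t' ^ 2 * (δ * t ^ 2 - (1 + 2 * κ)) := by ring
  have q : ∀ x : F, V x ≤ 1 → V (1 + 2 * x) ≤ 1 := fun x hx =>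
    V_add_le (by rw [map_one]) (V_two_mul_lt h2 hx).le
  have hle : exp (-2 : ℤ) ≤ (1 : WithZero (Multiplicative ℤ)) :=
    (exp_neg_two_lt.trans exp_neg_lt_one).le
  have q' : V (δ' * t' ^ 2) ≤ 1 := by
    have e' : δ' * t' ^ 2 = (δ' * t' ^ 2 - (1 + 2 * κ')) + (1 + 2 * κ') := by ring
    rw [e']
    exact V_add_le (hv'.trans hle) (q _ h1')
  rw [e]
  refine V_add_le (V_add_le (V_four_mul_le h2 (V_mul_le h1 h1')) ?_) ?_
  · rw [map_mul]
    calc V (1 + 2 * κ) * V (δ' * t' ^ 2 - (1 + 2 * κ')) ≤ 1 * exp (-2 : ℤ) :=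
          mul_le_mul' (q _ h1) hv'
      _ = _ := one_mul _
  · rw [map_mul]
    calc V (δ' * t' ^ 2) * V (δ * t ^ 2 - (1 + 2 * κ)) ≤ 1 * exp (-2 : ℤ) :=
          mul_le_mul' q' hv
      _ = _ := one_mul _

theorem Pig_res (hρ : ∀ x : V.integer, ρ x = 0 ↔ V x < 1) {x y : V.integer} (h : ρ x = ρ y) :
    V ((x : F) - y) < 1 := by
  have : V ((x - y : V.integer) : F) < 1 := by
    rw [← hρ, map_sub, h, sub_self]
  exact this

theorem two_pigeonQ [CharZero F] [Finite k] (h2 : V 2 = exp (-1 : ℤ))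
    (hρs : Function.Surjective ρ) (hρ : ∀ x : V.integer, ρ x = 0 ↔ V x < 1)
    (hH : ∀ x : F, V x ≤ exp (-3 : ℤ) → IsSquare (1 + x)) {A c : ℤ} (hc : c ≠ 0)
    (hd : A ^ 2 - 4 * c ≠ 0) (hS : ¬ H73IS.Small A c) (u : Fin 9 → F)
    (hu : ∀ i, V (u i) = 1) : ∃ i j, i ≠ j ∧ H73IS.QPt (A : F) (c : F) (u i * u j) := by
  classical
  have hch := charP_two h2 hρ
  have h20 : (2 : F) ≠ 0 := two_ne_zero
  have hcF : (c : F) ≠ 0 := Int.cast_ne_zero.mpr hc
  have hdF : (A : F) ^ 2 - 4 * (c : F) ≠ 0 := by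
    have := (Int.cast_ne_zero (α := F)).mpr hd
    push_cast at this
    exact this
  choose t κ ht hκ using fun i => exists_kappa h2 hρs hρ (hu i)
  have u0 : ∀ i, u i ≠ 0 := fun i => ne_zero_of_V (hu i)
  let K : AddSubgroup k :=
    { carrier := {x | ∃ κ : V.integer, ρ κ = x ∧ TwoQ V (A : F) (c : F) κ}
      add_mem' := by
        rintro x y ⟨κ, hκ, H⟩ ⟨κ', hκ', H'⟩
        exact ⟨κ + κ', by rw [map_add, hκ, hκ'], Pig_add h2 hcF hdF κ.2 κ'.2 H H'⟩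
      zero_mem' := ⟨0, map_zero _, Pig_zero V _ _⟩
      neg_mem' := by
        rintro x ⟨κ, hκ, H⟩
        exact ⟨κ, by rw [hκ, CharTwo.neg_eq], H⟩ }
  have hK : ∀ κ : V.integer, ρ κ ∈ K → TwoQ V (A : F) (c : F) κ := by
    rintro κ ⟨κ', hκ', H⟩
    exact Pig_congr h2 (Pig_res hρ hκ') H
  obtain ⟨α, β, γ, hn, hpoly⟩ := twoQ_poly (V := V) h2 hH hS
  have hcard : Nat.card (k ⧸ K) ≤ 4 := by
    refine index_le_four K (A := A) hn ?_
    intro z hz hz'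
    obtain ⟨Z, rfl⟩ := hρs z
    have v1 : V ((1 + Z : V.integer) : F) = 1 := by
      apply val_one_of_res hρ
      rw [map_add, map_one]
      exact hz
    have v2 : V ((1 + (A : V.integer) * Z + (A : V.integer) * Z ^ 2 : V.integer) : F) = 1 := by
      apply val_one_of_res hρ
      simp only [map_add, map_one, map_mul, map_pow, map_intCast]
      exact hz'
    refine ⟨(α : V.integer) * Z + (β : V.integer) * Z ^ 2 + (γ : V.integer) * Z ^ 4, ?_, ?_⟩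
    · simp only [map_add, map_mul, map_pow, map_intCast]
    · have := hpoly (Z : F) Z.2 v1 v2
      exact this
  let Q := k ⧸ K
  have := Fintype.ofFinite Q
  have hQ : Fintype.card Q ≤ 4 := by
    rw [← Nat.card_eq_fintype_card]
    exact hcard
  obtain ⟨q, hq⟩ := Fintype.exists_lt_card_fiber_of_mul_lt_card
    (f := fun i : Fin 9 => (ρ (κ i) : Q)) (n := 2) (by
      rw [Fintype.card_fin]; change Fintype.card Q * 2 < 9; omega)
  rw [Finset.two_lt_card] at hq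
  obtain ⟨i, hi, j, hj, l, hl, hij, hil, hjl⟩ := hq
  simp only [Finset.mem_filter, Finset.mem_univ, true_and] at hi hj hl
  -- pairs in the same class
  have pair : ∀ i j : Fin 9, (ρ (κ i) : Q) = ρ (κ j) → ∃ δ T : F, δ ≠ 0 ∧ T ≠ 0 ∧
      H73IS.QPt (A : F) (c : F) δ ∧ V (u i * u j * δ * T ^ 2 - 1) ≤ exp (-2 : ℤ) := by
    intro i j h
    have h1 := QuotientAddGroup.eq.mp h
    rw [CharTwo.neg_eq, ← map_add] at h1
    obtain ⟨δ, r, hδ, hr, hC, hv⟩ := hK _ h1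
    refine ⟨δ, t i * t j * r, hδ, mul_ne_zero (mul_ne_zero (ht i) (ht j)) hr, hC, ?_⟩
    have hv : V (δ * r ^ 2 - (1 + 2 * ((κ i : F) + κ j))) ≤ exp (-2 : ℤ) := hv
    have vi : V (κ i : F) ≤ 1 := (κ i).2
    have vj : V (κ j : F) ≤ 1 := (κ j).2
    have u1 : V ((1 + 2 * (κ i : F)) * (1 + 2 * (κ j : F))) ≤ 1 := by
      have q : ∀ x : F, V x ≤ 1 → V (1 + 2 * x) ≤ 1 := fun x hx =>
        V_add_le (by rw [map_one]) (V_two_mul_lt h2 hx).le
      exact V_mul_le (q _ vi) (q _ vj)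
    have e3 : u i * u j * δ * (t i * t j * r) ^ 2 - 1 =
        4 * ((κ i : F) + κ j + (κ i : F) * κ j + ((κ i : F) + κ j) ^ 2 +
          2 * ((κ i : F) * κ j * ((κ i : F) + κ j))) +
        (1 + 2 * (κ i : F)) * (1 + 2 * (κ j : F)) *
          (δ * r ^ 2 - (1 + 2 * ((κ i : F) + κ j))) := by
      have e2 : u i * u j * δ * (t i * t j * r) ^ 2 =
          (1 + 2 * (κ i : F)) * (1 + 2 * (κ j : F)) * (δ * r ^ 2) := by
        rw [← hκ, ← hκ]; ring
      rw [e2]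
      ring
    rw [e3]
    refine V_add_le (V_four_mul_le h2 ?_) ?_
    · refine V_add_le (V_add_le (V_add_le (V_add_le vi vj) (V_mul_le vi vj))
        (V_pow_le (V_add_le vi vj) 2)) ?_
      exact (V_two_mul_lt h2 (V_mul_le (V_mul_le vi vj) (V_add_le vi vj))).le
    · rw [map_mul]
      calc V ((1 + 2 * (κ i : F)) * (1 + 2 * (κ j : F))) *
            V (δ * r ^ 2 - (1 + 2 * ((κ i : F) + κ j))) ≤ 1 * exp (-2 : ℤ) :=
            mul_le_mul' u1 hv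
        _ = _ := _root_.one_mul _
  obtain ⟨δ, T, hδ, hT, hC, hv⟩ := pair i j (hi.trans hj.symm)
  obtain ⟨δ', T', hδ', hT', hC', hv'⟩ := pair i l (hi.trans hl.symm)
  have rm : ∀ x T : F, T ≠ 0 → IsSquare (x * T ^ 2) → IsSquare x := by
    rintro x T hT ⟨s, hs⟩
    refine ⟨s / T, ?_⟩
    field_simp
    linear_combination hs
  rcases four_pair h2 hρs hρ hH hv hv' with h | h | h
  · exact ⟨i, j, hij, QPt.of_mul_square hδ (mul_ne_zero (u0 i) (u0 j)) hC (rm _ _ hT h)⟩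
  · exact ⟨i, l, hil, QPt.of_mul_square hδ' (mul_ne_zero (u0 i) (u0 l)) hC' (rm _ _ hT' h)⟩
  · refine ⟨j, l, hjl, ?_⟩
    refine QPt.of_mul_square (mul_ne_zero hδ hδ')
      (mul_ne_zero (u0 j) (u0 l)) (hC.mul hcF hdF hδ hδ' hC') ?_
    refine rm _ (u i * T * T') (mul_ne_zero (mul_ne_zero (u0 i) hT) hT') ?_
    have e : u j * u l * (δ * δ') * (u i * T * T') ^ 2 =
        u i * u j * δ * T ^ 2 * (u i * u l * δ' * T' ^ 2) := by ring
    rw [e]
    exact h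

end H86IG
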