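import Pool.Agent.H86.IG.Lft

/-!
Row Psi (about 120 lines): the soluble classes at two contain the values of an additive polynomial.

PROOF. Apply `twoQ_lift`. Mod 2 computations: write every polynomial identity as 'left side = 2 * (explicit) ' and use V_two_mul_lt (H10/StarLoc or GrTwo), Valuation.map_one_add_of_lt, V_int, V_pow_le, V_mul_le.
 B0 := A (A-1)/2, C0 := c (c-1)/2 (exact divisions).
 c even (c = 2 c'): α = A, β = B0, γ = c'. s = Z. h1: V (c Z^4) < 1. hP: 1 + A Z + c Z^2: A even: clear. A odd: = (1 + Z) + 2 (..). hE: κ - 2 c' κ Z^4 - B0 Z^2 - c' (2 c' - 1) Z^4 - A Z - 2 c' Z^2 - 2 A c' Z^3 = 2 (...).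
 c odd: α = A, β = A + B0 + 1, γ = B0 + 1 + C0. s = Z/(1 + Z), V s ≤ 1 (V (1+Z) = 1). (1 - c s^4) (1+Z)^4 = (1+Z)^4 - c Z^4 = 1 + 2 (..) (c odd). (1 + A s + c s^2) (1+Z)^2 = (1+Z)^2 + A Z (1+Z) + c Z^2
  = (1 + A Z + A Z^2) + 2 (..). hE times (1+Z)^4: κ ((1+Z)^4 - c Z^4) - (B0 Z^2 (1+Z)^2 + C0 Z^4 + A Z (1+Z)^3 + c Z^2 (1+Z)^2 + A c Z^3 (1+Z)) = 2 (..)
   [mod 2: κ = (B0+1)(Z^2+Z^4) + C0 Z^4 + A (Z + Z^2)].
 Not all even: if all three are even then Small A c. c even: A = 2 m, B0 = m (2 m - 1) so m even, c' even: c = 0 mod 4, (A/2)^2 = 0 mod 4. c odd: A = 2 m, A + B0 + 1 even so B0 odd, m odd; then C0 even, c = 1 mod 4; (A/2)^2 = m^2 = 1 mod 4.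
-/

set_option autoImplicit false

open WithZero Pool.Agent.H10

namespace H86IG

variable {F : Type*} [Field F] {V : Valuation F (WithZero (Multiplicative ℤ))}

theorem Psi_mul {x w : F} (hw : V w = 1) (n : ℕ) : V (x * w ^ n) = V x := by
  rw [map_mul, map_pow, hw, one_pow, mul_one]

theorem Psi_one (V : Valuation F (WithZero (Multiplicative ℤ))) : V (1 : F) ≤ 1 := by rw [map_one]

theorem Psi_two (V : Valuation F (WithZero (Multiplicative ℤ))) : V (2 : F) ≤ 1 := by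
  have h := V_int (V := V) (2 : ℤ)
  exact_mod_cast h

theorem Psi_three (V : Valuation F (WithZero (Multiplicative ℤ))) : V (3 : F) ≤ 1 := by
  have h := V_int (V := V) (3 : ℤ)
  exact_mod_cast h

theorem Psi_c_even (h2 : V 2 = exp (-1 : ℤ))
    (hH : ∀ x : F, V x ≤ exp (-3 : ℤ) → IsSquare (1 + x)) {A c c' : ℤ} (hc : c = 2 * c') {Z : F}
    (hZ : V Z ≤ 1) (hZ1 : V (1 + Z) = 1) :
    TwoQ V (A : F) (c : F) ((A : F) * Z + ((A * (A - 1) / 2 : ℤ) : F) * Z ^ 2 + (c' : F) * Z ^ 4) := by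
  obtain ⟨B0, hB0⟩ : ∃ B0 : ℤ, B0 = A * (A - 1) / 2 := ⟨_, rfl⟩
  obtain ⟨C0, hC0⟩ : ∃ C0 : ℤ, C0 = c * (c - 1) / 2 := ⟨_, rfl⟩
  have hC : C0 = c' * (2 * c' - 1) := by
    rw [hC0, hc]
    have e : 2 * c' * (2 * c' - 1) = 2 * (c' * (2 * c' - 1)) := by ring
    rw [e]
    exact Int.mul_ediv_cancel_left _ (by norm_num)
  have hCF : (C0 : F) = (c' : F) * (2 * (c' : F) - 1) := by
    rw [hC]
    push_cast
    ring
  have hcF : (c : F) = 2 * (c' : F) := by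
    rw [hc]
    push_cast
    ring
  have v1 := Psi_one V
  have v2 := Psi_two V
  rw [← hB0]
  obtain ⟨κ, hκ⟩ : ∃ κ : F, κ = (A : F) * Z + (B0 : F) * Z ^ 2 + (c' : F) * Z ^ 4 := ⟨_, rfl⟩
  have hκ1 : V κ ≤ 1 := by
    rw [hκ]
    repeat' first | exact V_int _ | assumption | apply V_sub_le | apply V_add_le | apply V_mul_le | apply V_pow_le
  rw [← hκ]
  refine twoQ_lift h2 hH hZ hκ1 ?_ ?_ ?_
  · have e : 1 - (c : F) * Z ^ 4 = 1 + 2 * ((0 : ℤ) - (c' : F) * Z ^ 4) := by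
      rw [hcF]
      push_cast
      ring
    rw [e]
    refine Valuation.map_one_add_of_lt V (V_two_mul_lt h2 ?_)
    repeat' first | exact V_int _ | assumption | apply V_sub_le | apply V_add_le | apply V_mul_le | apply V_pow_le
  · rcases Int.even_or_odd' A with ⟨m, hm | hm⟩
    · have e : 1 + (A : F) * Z + (c : F) * Z ^ 2 = 1 + 2 * ((m : F) * Z + (c' : F) * Z ^ 2) := by
        rw [hcF, hm]
        push_cast
        ring
      rw [e]
      refine Valuation.map_one_add_of_lt V (V_two_mul_lt h2 ?_)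
      repeat' first | exact V_int _ | assumption | apply V_sub_le | apply V_add_le | apply V_mul_le | apply V_pow_le
    · have e : 1 + (A : F) * Z + (c : F) * Z ^ 2 =
          (1 + Z) + 2 * ((m : F) * Z + (c' : F) * Z ^ 2) := by
        rw [hcF, hm]
        push_cast
        ring
      rw [e, Valuation.map_add_eq_of_lt_left V ?_, hZ1]
      rw [hZ1]
      refine V_two_mul_lt h2 ?_
      repeat' first | exact V_int _ | assumption | apply V_sub_le | apply V_add_le | apply V_mul_le | apply V_pow_le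
  · rw [← hB0, ← hC0]
    have e : κ * (1 - (c : F) * Z ^ 4) - ((B0 : F) * Z ^ 2 + (C0 : F) * Z ^ 4 + (A : F) * Z +
        (c : F) * Z ^ 2 + (A : F) * c * Z ^ 3) =
        2 * ((c' : F) * Z ^ 4 - (c' : F) ^ 2 * Z ^ 4 - (c' : F) * Z ^ 4 * κ - (c' : F) * Z ^ 2 -
          (A : F) * (c' : F) * Z ^ 3) := by
      rw [hcF, hCF]
      linear_combination hκ
    rw [e]
    refine V_two_mul_lt h2 ?_
    repeat' first | exact V_int _ | assumption | apply V_sub_le | apply V_add_le | apply V_mul_le | apply V_pow_le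

theorem Psi_c_odd (h2 : V 2 = exp (-1 : ℤ))
    (hH : ∀ x : F, V x ≤ exp (-3 : ℤ) → IsSquare (1 + x)) {A c c' : ℤ} (hc : c = 2 * c' + 1) {Z : F}
    (hZ : V Z ≤ 1) (hZ1 : V (1 + Z) = 1) (hZ2 : V (1 + (A : F) * Z + (A : F) * Z ^ 2) = 1) :
    TwoQ V (A : F) (c : F) ((A : F) * Z + ((A + A * (A - 1) / 2 + 1 : ℤ) : F) * Z ^ 2 +
      ((A * (A - 1) / 2 + 1 + c * (c - 1) / 2 : ℤ) : F) * Z ^ 4) := by
  obtain ⟨B0, hB0⟩ : ∃ B0 : ℤ, B0 = A * (A - 1) / 2 := ⟨_, rfl⟩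
  obtain ⟨C0, hC0⟩ : ∃ C0 : ℤ, C0 = c * (c - 1) / 2 := ⟨_, rfl⟩
  have hcF : (c : F) = 1 + 2 * (c' : F) := by
    rw [hc]
    push_cast
    ring
  have v1 := Psi_one V
  have v2 := Psi_two V
  have v3 := Psi_three V
  rw [← hB0, ← hC0]
  obtain ⟨κ, hκ⟩ : ∃ κ : F, κ = (A : F) * Z + ((A + B0 + 1 : ℤ) : F) * Z ^ 2 +
    ((B0 + 1 + C0 : ℤ) : F) * Z ^ 4 := ⟨_, rfl⟩
  have hκ1 : V κ ≤ 1 := by
    rw [hκ]
    repeat' first | exact V_int _ | assumption | apply V_sub_le | apply V_add_le | apply V_mul_le | apply V_pow_le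
  rw [← hκ]
  push_cast at hκ
  have hw0 : (1 + Z : F) ≠ 0 := by
    intro h
    rw [h, map_zero] at hZ1
    exact zero_ne_one hZ1
  obtain ⟨s, hs⟩ : ∃ s : F, s * (1 + Z) = Z := ⟨Z / (1 + Z), div_mul_cancel₀ Z hw0⟩
  have hs1 : V s ≤ 1 := by
    have h := congrArg V hs
    rw [map_mul, hZ1, mul_one] at h
    rw [h]
    exact hZ
  have s2 : s ^ 2 * (1 + Z) ^ 2 = Z ^ 2 := by rw [← mul_pow, hs]
  have s3 : s ^ 3 * (1 + Z) ^ 3 = Z ^ 3 := by rw [← mul_pow, hs]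
  have s4 : s ^ 4 * (1 + Z) ^ 4 = Z ^ 4 := by rw [← mul_pow, hs]
  refine twoQ_lift h2 hH hs1 hκ1 ?_ ?_ ?_
  · rw [← Psi_mul hZ1 4]
    have e : (1 - (c : F) * s ^ 4) * (1 + Z) ^ 4 =
        1 + 2 * (2 * Z + 3 * Z ^ 2 + 2 * Z ^ 3 - (c' : F) * Z ^ 4) := by
      rw [hcF]
      linear_combination (-(1 + 2 * (c' : F))) * s4
    rw [e]
    refine Valuation.map_one_add_of_lt V (V_two_mul_lt h2 ?_)
    repeat' first | exact V_int _ | assumption | apply V_sub_le | apply V_add_le | apply V_mul_le | apply V_pow_le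
  · rw [← Psi_mul hZ1 2]
    have e : (1 + (A : F) * s + (c : F) * s ^ 2) * (1 + Z) ^ 2 =
        (1 + (A : F) * Z + (A : F) * Z ^ 2) + 2 * (Z + Z ^ 2 + (c' : F) * Z ^ 2) := by
      rw [hcF]
      linear_combination ((A : F) * (1 + Z)) * hs + (1 + 2 * (c' : F)) * s2
    rw [e, Valuation.map_add_eq_of_lt_left V ?_, hZ2]
    rw [hZ2]
    refine V_two_mul_lt h2 ?_
    repeat' first | exact V_int _ | assumption | apply V_sub_le | apply V_add_le | apply V_mul_le | apply V_pow_le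
  · rw [← Psi_mul hZ1 4, ← hB0, ← hC0]
    have e : (κ * (1 - (c : F) * s ^ 4) - ((B0 : F) * s ^ 2 + (C0 : F) * s ^ 4 + (A : F) * s +
        (c : F) * s ^ 2 + (A : F) * c * s ^ 3)) * (1 + Z) ^ 4 =
        2 * (κ * (2 * Z + 3 * Z ^ 2 + 2 * Z ^ 3 - (c' : F) * Z ^ 4) - ((A : F) + (c' : F)) * Z ^ 2 -
          ((B0 : F) + 2 * (A : F) + 1 + 2 * (c' : F) + (A : F) * (c' : F)) * Z ^ 3 -
          ((A : F) + (c' : F) + (A : F) * (c' : F)) * Z ^ 4) := by
      rw [hcF]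
      linear_combination (-(κ * (1 + 2 * (c' : F))) - (C0 : F)) * s4 +
        (-(B0 : F) * (1 + Z) ^ 2 - (1 + 2 * (c' : F)) * (1 + Z) ^ 2) * s2 +
        (-(A : F) * (1 + Z) ^ 3) * hs + (-((A : F) * (1 + 2 * (c' : F))) * (1 + Z)) * s3 + hκ
    rw [e]
    refine V_two_mul_lt h2 ?_
    repeat' first | exact V_int _ | assumption | apply V_sub_le | apply V_add_le | apply V_mul_le | apply V_pow_le

theorem Psi_half (m : ℤ) : 2 * m * (2 * m - 1) / 2 = m * (2 * m - 1) := by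
  have e : 2 * m * (2 * m - 1) = 2 * (m * (2 * m - 1)) := by ring
  rw [e]
  exact Int.mul_ediv_cancel_left _ (by norm_num)

theorem twoQ_poly (h2 : V 2 = exp (-1 : ℤ))
    (hH : ∀ x : F, V x ≤ exp (-3 : ℤ) → IsSquare (1 + x)) {A c : ℤ}
    (hS : ¬ H73IS.Small A c) :
    ∃ α β γ : ℤ, (α % 2 = 1 ∨ β % 2 = 1 ∨ γ % 2 = 1) ∧ ∀ Z : F, V Z ≤ 1 → V (1 + Z) = 1 →
      V (1 + (A : F) * Z + (A : F) * Z ^ 2) = 1 →
      TwoQ V (A : F) (c : F) ((α : F) * Z + (β : F) * Z ^ 2 + (γ : F) * Z ^ 4) := by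
  rcases Int.even_or_odd' c with ⟨c', hc | hc⟩
  · refine ⟨A, A * (A - 1) / 2, c', ?_, fun Z hZ hZ1 _ => Psi_c_even h2 hH hc hZ hZ1⟩
    by_contra hcon
    obtain ⟨m, hm⟩ : ∃ m, A = 2 * m := ⟨A / 2, by omega⟩
    rw [hm, Psi_half] at hcon
    apply hS
    rcases Int.even_or_odd' m with ⟨n, hn | hn⟩
    · obtain ⟨c2, hc2⟩ : ∃ c2, c' = 2 * c2 := ⟨c' / 2, by omega⟩
      refine ⟨by omega, ?_⟩
      have e1 : A / 2 = 2 * n := by omega
      have e2 : c - (2 * n) ^ 2 = 4 * (c2 - n ^ 2) := by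
        rw [hc, hc2]
        ring
      rw [e1, e2]
      exact Int.mul_emod_right 4 _
    · exfalso
      have e3 : m * (2 * m - 1) = 2 * (4 * n ^ 2 + 3 * n) + 1 := by
        rw [hn]
        ring
      rw [e3] at hcon
      omega
  · refine ⟨A, A + A * (A - 1) / 2 + 1, A * (A - 1) / 2 + 1 + c * (c - 1) / 2, ?_,
      fun Z hZ hZ1 hZ2 => Psi_c_odd h2 hH hc hZ hZ1 hZ2⟩
    by_contra hcon
    obtain ⟨m, hm⟩ : ∃ m, A = 2 * m := ⟨A / 2, by omega⟩
    have hC : c * (c - 1) / 2 = c' * (2 * c' + 1) := by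
      rw [hc]
      have e : (2 * c' + 1) * (2 * c' + 1 - 1) = 2 * (c' * (2 * c' + 1)) := by ring
      rw [e]
      exact Int.mul_ediv_cancel_left _ (by norm_num)
    rw [hC, hm, Psi_half] at hcon
    apply hS
    rcases Int.even_or_odd' m with ⟨n, hn | hn⟩
    · exfalso
      have e3 : m * (2 * m - 1) = 2 * (4 * n ^ 2 - n) := by
        rw [hn]
        ring
      rw [e3] at hcon
      omega
    · have e3 : m * (2 * m - 1) = 2 * (4 * n ^ 2 + 3 * n) + 1 := by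
        rw [hn]
        ring
      rw [e3] at hcon
      rcases Int.even_or_odd' c' with ⟨c2, hc2 | hc2⟩
      · refine ⟨by omega, ?_⟩
        have e1 : A / 2 = 2 * n + 1 := by omega
        have e2 : c - (2 * n + 1) ^ 2 = 4 * (c2 - n ^ 2 - n) := by
          rw [hc, hc2]
          ring
        rw [e1, e2]
        exact Int.mul_emod_right 4 _
      · exfalso
        have e4 : c' * (2 * c' + 1) = 2 * (4 * c2 ^ 2 + 5 * c2 + 1) + 1 := by
          rw [hc2]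
          ring
        rw [e4] at hcon
        omega

end H86IG
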